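import Pool.Agent.NPC.Classes

/-!
# The classes `FP_||^NP` and `FP^NP[log]` of functions

Polynomial time is Mathlib's `Turing.TM2ComputableInPolyTime` (through `Pool.Agent.NPC.PolyTime`).
-/

set_option autoImplicit false

namespace Pool.Agent.H251R5.PQ

open Pool.Agent.NPC

open Classical in
/-- The answers of the oracle `L` to the list of queries `qs`. -/
noncomputable def answers (L : Set (List Bool)) (qs : List (List Bool)) : List Bool :=
  qs.map (fun q => decide (q ∈ L))

/-- Functions computable in polynomial time with parallel (non-adaptive) queries to an `NP`
oracle: `Q x` is the list of all queries on input `x`, and the value is computed in polynomial time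
from `x` and the list of the answers. -/
def InFPpar (f : List Bool → List Bool) : Prop :=
  ∃ (L : Set (List Bool)) (Q : List Bool → List (List Bool)) (g : List Bool → List Bool),
    InNP L ∧ PolyTime (fun x => bits (Q x)) ∧ PolyTime g ∧
      ∀ x, f x = g (pairBits x (answers L (Q x)))

open Classical in
/-- The answers to the first `k` queries of an adaptive computation with oracle `L`, in which the
next query is computed by `q` from the input and the answers obtained so far. -/
noncomputable def adaptive (L : Set (List Bool)) (q : List Bool → List Bool) (x : List Bool) :
    ℕ → List Bool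
  | 0 => []
  | k + 1 => adaptive L q x k ++ [decide (q (pairBits x (adaptive L q x k)) ∈ L)]

/-- Functions computable in polynomial time with `O(log n)` adaptive queries to an `NP` oracle. -/
def InFPlog (f : List Bool → List Bool) : Prop :=
  ∃ (L : Set (List Bool)) (q g : List Bool → List Bool) (c : ℕ),
    InNP L ∧ PolyTime q ∧ PolyTime g ∧
      ∀ x, f x = g (pairBits x (adaptive L q x (c * (Nat.log 2 x.length + 1))))

/-- The hypothesis `FP_||^NP = FP^NP[log]`. -/
def H2 : Prop := ∀ f : List Bool → List Bool, InFPpar f ↔ InFPlog f

end Pool.Agent.H251R5.PQ
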