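import Pool.Agent.H671R2.PolyAuto
import Pool.Agent.H622R2.CoNP
import Pool.Agent.H251R5.PQ.Cls

/-!
# Parallel queries to `NP` with logarithmic advice: definitions

Polynomial time is Mathlib's `Turing.TM2ComputableInPolyTime` (through `Pool.Agent.NPC.PolyTime`).
-/

set_option autoImplicit false

namespace Pool.Agent.H251R5.PQ

open Pool.Agent.NPC

/-! ### Enumerators -/

/-- `E` is a polynomial-time enumerator for the answers of `L`: for every list of queries it
produces a list of vectors one of which is the vector of the answers. -/
def EnumFor (L : Set (List Bool)) (E : List (List Bool) → List (List Bool)) : Prop :=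
  Poly E ∧ ∀ qs, answers L qs ∈ E qs

/-! ### The code -/

/-- Value at `a` modulo `p` of the polynomial with coefficients `w`. -/
def ev (p a : ℕ) (w : List Bool) : ℕ := w.foldr (fun b acc => (acc * a + b.toNat) % p) 0

/-- A block: a list of points `(position, value)`. -/
abbrev Blk := List (ℕ × ℕ)

/-- `w` passes through a point of every block. -/
def Pass (p : ℕ) (B : List Blk) (w : List Bool) : Bool :=
  B.all (fun P => P.any (fun q => decide (ev p q.1 w = q.2)))

/-- The least prime above `u ^ 6` (searched up to `2 * u ^ 6`). -/
def pr (u : ℕ) : ℕ :=
  (((List.range (2 * u ^ 6 + 1)).filter (fun a => decide (u ^ 6 < a) &&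
    (List.range a).all (fun d => decide (d ≤ 1) || decide (a % d ≠ 0)))).head?).getD 2

/-! ### The algorithm -/

/-- A verifier with witnesses of length exactly `n x`. -/
structure Ver where
  /-- the length of the witnesses -/
  n : List Bool → ℕ
  /-- the test -/
  V : List Bool → List Bool → Bool
  hn : UPoly n
  hV : Poly (fun t : List Bool × List Bool => V t.1 t.2)
  pos : ∀ x, 1 ≤ n x

/-- The data carried by the algorithm: the input, the size parameter in unary, the blocks. -/
abbrev St := List Bool × List Unit × List Blk

/-- the size parameter -/
def su (s : St) : ℕ := s.2.1.length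

/-- the modulus -/
def sp (s : St) : ℕ := pr (su s)

/-- `w` is a witness surviving in the state `s`. -/
def IsW (D : Ver) (s : St) (w : List Bool) : Prop :=
  w.length = D.n s.1 ∧ D.V s.1 w = true ∧ Pass (sp s) s.2.2 w = true

/-- The `NP` predicate of the queries: there is a surviving witness whose bit number `b` is `true`
(no condition if `b` is out of range). -/
def Qry (D : Ver) (t : St × ℕ) : Prop := ∃ w, IsW D t.1 w ∧ w.getD t.2 true = true

/-- add a one-point block -/
def addp (s : St) (q : ℕ × ℕ) : St := (s.1, s.2.1, s.2.2 ++ [[q]])

/-- The list of all queries asked in the state `s`. -/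
def qlist (D : Ver) (s : St) : List (List Bool) :=
  (List.range (sp s * sp s * (D.n s.1 + 1))).map (fun i =>
    bits ((addp s (i / (D.n s.1 + 1) / sp s, i / (D.n s.1 + 1) % sp s), i % (D.n s.1 + 1)) : St × ℕ))

/-- The answer of the vector `h` to the query `(a, y, b)`. -/
def val (n p : ℕ) (h : List Bool) (a y b : ℕ) : Bool := h.getD ((a * p + y) * (n + 1) + b) false

/-- The string read off from the vector `h` at the point `(a, y)`. -/
def dec (n p : ℕ) (h : List Bool) (a y : ℕ) : List Bool :=
  (List.range n).map (fun b => val n p h a y b)

/-- The vector `h` claims that the point `q` is hit by a surviving witness. -/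
def hit (n p : ℕ) (h : List Bool) (q : ℕ × ℕ) : Bool := val n p h q.1 q.2 n

/-- Look for a witness among the strings read off from the candidate vectors. -/
def test (D : Ver) (E : List (List Bool) → List (List Bool)) (s : St) : Bool :=
  (E (qlist D s)).any (fun h => (List.range (sp s)).any (fun a => (List.range (sp s)).any
    (fun y => D.V s.1 (dec (D.n s.1) (sp s) h a y))))

/-- The points at unused positions. -/
def pts (s : St) : List (ℕ × ℕ) :=
  ((List.range (sp s * sp s)).map (fun i => (i / sp s, i % sp s))).filter
    (fun q => s.2.2.all (fun P => P.all (fun r => decide (r.1 ≠ q.1))))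

/-- The candidate vectors which claim many points. -/
def heavy (D : Ver) (E : List (List Bool) → List (List Bool)) (s : St) : List (List Bool) :=
  (E (qlist D s)).filter (fun h => decide ((pts s).length ≤
    32 * D.n s.1 * ((pts s).filter (hit (D.n s.1) (sp s) h)).length))

/-- One step of the greedy choice: `R` are the vectors not yet hit, `P` the chosen points. -/
def gstep (hf : List Bool → ℕ × ℕ → Bool) (m : ℕ) (Q : List (ℕ × ℕ))
    (t : List (List Bool) × Blk) : List (List Bool) × Blk :=
  if t.1.isEmpty then t else
    ((Q.filter (fun q => decide (t.1.length ≤ m * (t.1.filter (fun h => hf h q)).length))).head?).elim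
      t (fun q => (t.1.filter (fun h => !(hf h q)), q :: t.2))

/-- Greedy choice of points hitting all vectors of `R`. -/
def greedy (hf : List Bool → ℕ × ℕ → Bool) (m : ℕ) (Q : List (ℕ × ℕ)) (R : List (List Bool)) : Blk :=
  ((gstep hf m Q)^[R.length] (R, [])).2

/-- The new block. -/
def block (D : Ver) (E : List (List Bool) → List (List Bool)) (s : St) : Blk :=
  greedy (hit (D.n s.1) (sp s)) (32 * D.n s.1) (pts s) (heavy D E s)

/-- One level of the algorithm. -/
def nxt (D : Ver) (E : List (List Bool) → List (List Bool)) (s : St) : St :=
  (s.1, s.2.1, s.2.2 ++ [block D E s])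

/-- The size parameter of the algorithm. -/
def par (D : Ver) (u0 : ℕ) (x : List Bool) : ℕ := x.length + 3 * D.n x + u0

/-- The initial state. -/
def ini (D : Ver) (u0 : ℕ) (x : List Bool) : St := (x, List.replicate (par D u0 x) (), [])

/-- One level of the algorithm, with the test. -/
def nxt2 (D : Ver) (E : List (List Bool) → List (List Bool)) (t : Bool × St) : Bool × St :=
  (t.1 || test D E t.2, nxt D E t.2)

/-- The algorithm: run `par ^ 3 + 1` levels and see whether some test succeeded. -/
def acc (D : Ver) (E : List (List Bool) → List (List Bool)) (u0 : ℕ) (x : List Bool) : Bool :=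
  ((nxt2 D E)^[par D u0 x ^ 3 + 1] (false, ini D u0 x)).1

end Pool.Agent.H251R5.PQ
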