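import Pool.Agent.H251R5.PQ.Stm

set_option autoImplicit false

namespace Pool.Agent.H251R5.PQ

open Pool.Agent.NPC

theorem enu_poly_bits {α : Type} [TEnc α] : Poly (fun a : α => bits a) := by
  have h : PC (bits : α → List Bool) (fun x : List Bool => x) (fun a => bits a) := by
    obtain ⟨c, p, h⟩ := PC.id (ea := (bits : α → List Bool))
    exact ⟨c, p, h⟩
  exact PC.comp (g := fun x => x) (f := fun a : α => bits a) PC.rawIn h

/-- one more bit at the end of all strings -/
def enuStep (L : List (List Bool)) : List (List Bool) :=
  L.flatMap (fun t => [t ++ [false], t ++ [true]])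

theorem enu_poly_step : Poly enuStep := by
  unfold enuStep
  fun_prop

theorem enu_length (k : ℕ) : (enuStep^[k] [[]]).length = 2 ^ k := by
  induction k with
  | zero => rfl
  | succ k ih =>
    rw [Function.iterate_succ_apply']
    have h : ∀ L : List (List Bool), (enuStep L).length = L.length * 2 := by
      intro L
      unfold enuStep
      induction L with
      | nil => rfl
      | cons t L ih2 =>
        rw [List.flatMap_cons, List.length_append, ih2, List.length_cons]
        simp only [List.length_cons, List.length_nil]
        ring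
    rw [h, ih, pow_succ]

theorem enu_mem_length (k : ℕ) : ∀ t ∈ enuStep^[k] [[]], t.length = k := by
  induction k with
  | zero =>
    intro t ht
    have : t = [] := by simpa using ht
    rw [this]
    rfl
  | succ k ih =>
    intro t ht
    rw [Function.iterate_succ_apply'] at ht
    unfold enuStep at ht
    rw [List.mem_flatMap] at ht
    obtain ⟨s, hs, ht⟩ := ht
    have h1 := ih s hs
    simp only [List.mem_cons, List.not_mem_nil, or_false] at ht
    rcases ht with rfl | rfl
    · rw [List.length_append, h1]
      rfl
    · rw [List.length_append, h1]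
      rfl

theorem enu_mem (k : ℕ) : ∀ t : List Bool, t.length = k → t ∈ enuStep^[k] [[]] := by
  induction k with
  | zero =>
    intro t ht
    rw [List.length_eq_zero_iff] at ht
    rw [ht]
    simp
  | succ k ih =>
    intro t ht
    have hne : t ≠ [] := by
      rintro rfl
      simp at ht
    rw [Function.iterate_succ_apply']
    unfold enuStep
    rw [List.mem_flatMap]
    refine ⟨t.dropLast, ih _ (by rw [List.length_dropLast, ht]; rfl), ?_⟩
    have h1 := List.dropLast_append_getLast hne
    rw [List.mem_cons, List.mem_singleton]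
    cases hb : t.getLast hne with
    | false => left; rw [← hb]; exact h1.symm
    | true => right; rw [← hb]; exact h1.symm

theorem enu_adaptive (L : Set (List Bool)) (q : List Bool → List Bool) (x : List Bool) (k : ℕ) :
    (adaptive L q x k).length = k := by
  induction k with
  | zero => rfl
  | succ k ih =>
    unfold adaptive
    rw [List.length_append, ih]
    rfl

theorem enu_sz (k : ℕ) : sz (enuStep^[k] [[]]) ≤ 2 ^ k * (4 * k + 2) + 1 := by
  have h := sz_le_length_mul (enuStep^[k] [[]]) (4 * k + 1) (by
    intro t ht
    have h1 := sz_listBool_le t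
    rw [enu_mem_length k t ht] at h1
    exact h1)
  rw [enu_length] at h
  exact h

theorem enu_size {N : ℕ} (hN : 0 < N) : N.bits.length = Nat.log 2 N + 1 := by
  rw [Nat.size_eq_bits_len]
  apply le_antisymm
  · rw [Nat.size_le]
    exact Nat.lt_pow_succ_log_self (by norm_num) N
  · exact Nat.lt_size.mpr (Nat.pow_log_le_self 2 (by omega))

theorem enu_pos {α : Type} [TEnc α] (a : α) : 0 < (bits a).length := by
  rw [bits_length]
  exact sz_pos a

/-- the number of queries, in unary -/
theorem enu_upoly (c : ℕ) : UPoly (fun qs : List (List Bool) =>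
    c * (Nat.log 2 (bits qs).length + 1)) := by
  have h1 : Poly (fun qs : List (List Bool) => (bits qs).length) := Poly.length enu_poly_bits
  have h2 : UPoly (fun qs : List (List Bool) => ((bits qs).length).bits.length) :=
    UPoly.length (Poly.natBits h1)
  have h3 : UPoly (fun qs : List (List Bool) => c * ((bits qs).length).bits.length) :=
    UPoly.mul (UPoly.const c) h2
  refine Poly.congr h3 fun qs => ?_
  show List.replicate (c * (bits qs).length.bits.length) () = List.replicate (c * (Nat.log 2 (bits qs).length + 1)) ()
  rw [enu_size (enu_pos qs)]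

theorem enu_log_le {N : ℕ} (hN : 0 < N) : Nat.log 2 N + 1 ≤ N := by
  have := Nat.log_lt_self 2 (x := N) (by omega)
  omega

theorem enu_poly_all (c : ℕ) : Poly (fun qs : List (List Bool) =>
    enuStep^[c * (Nat.log 2 (bits qs).length + 1)] [[]]) := by
  have h := Poly.iterLen (F := fun _ : List (List Bool) => enuStep)
    (s := fun _ : List (List Bool) => ([[]] : List (List Bool))) (enu_upoly c) (NPC.Poly.const _)
    (enu_poly_step.comp (Poly.snd Poly.id))
    ((Polynomial.C 2 * Polynomial.X) ^ c * (Polynomial.C (4 * c) * Polynomial.X + Polynomial.C 2)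
      + Polynomial.C 1) ?_
  · refine h.congr fun qs => ?_
    rw [List.length_replicate]
  · intro qs k hk
    rw [List.length_replicate] at hk
    replace hk : k ≤ c * (Nat.log 2 (bits qs).length + 1) := hk
    have hN := enu_pos qs
    rw [← bits_length qs]
    obtain ⟨N, hNN⟩ : ∃ N, N = (bits qs).length := ⟨_, rfl⟩
    rw [← hNN] at hk hN ⊢
    simp only [Polynomial.eval_add, Polynomial.eval_mul, Polynomial.eval_C, Polynomial.eval_X,
      Polynomial.eval_pow]
    refine (enu_sz k).trans ?_
    have h1 : 2 ^ k ≤ (2 * N) ^ c := by
      calc 2 ^ k ≤ 2 ^ (c * (Nat.log 2 N + 1)) := Nat.pow_le_pow_right (by norm_num) hk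
        _ = (2 ^ (Nat.log 2 N + 1)) ^ c := by rw [← pow_mul, mul_comm]
        _ ≤ (2 * N) ^ c := by
          apply Nat.pow_le_pow_left
          rw [pow_succ, mul_comm]
          exact Nat.mul_le_mul_left 2 (Nat.pow_log_le_self 2 (by omega))
    have h2 : 4 * k + 2 ≤ 4 * c * N + 2 := by
      have h3 : k ≤ c * N := hk.trans (Nat.mul_le_mul_left c (enu_log_le hN))
      have h4 : 4 * k ≤ 4 * (c * N) := Nat.mul_le_mul_left 4 h3
      rw [mul_assoc]
      omega
    exact Nat.add_le_add_right (Nat.mul_le_mul h1 h2) 1

theorem t_ENU : S_ENU := by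
  intro h2 L hL
  have hQ : Poly (fun x : List Bool => (unbits (List (List Bool)) x).getD []) :=
    Poly.optGetD (g := fun _ => []) poly_unbits (NPC.Poly.const _)
  have hpar : InFPpar (fun x => answers L ((unbits (List (List Bool)) x).getD [])) := by
    refine ⟨L, fun x => (unbits (List (List Bool)) x).getD [], fun y => (unpair y).2, hL,
      polyTime_bits hQ, H622R2.polyTime_of_poly_list (Poly.snd poly_unpair), fun x => ?_⟩
    show _ = (unpair (pairBits x (answers L ((unbits (List (List Bool)) x).getD [])))).2
    rw [unpair_pairBits]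
  obtain ⟨L', q, g, c, _, _, hg, hf⟩ := (h2 _).1 hpar
  refine ⟨fun qs => (enuStep^[c * (Nat.log 2 (bits qs).length + 1)] [[]]).map
    (fun t => g (pairBits (bits qs) t)), ?_, ?_⟩
  · refine NPC.Poly.map (F := fun (qs : List (List Bool)) (t : List Bool) => g (pairBits (bits qs) t))
      (enu_poly_all c) ?_
    exact (H622R2.poly_of_polyTime hg).comp (H622R2.poly_pairBits
      (enu_poly_bits.comp (Poly.fst Poly.id)) (Poly.snd Poly.id))
  · intro qs
    have h3 : answers L ((unbits (List (List Bool)) (bits qs)).getD []) = _ := hf (bits qs)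
    rw [unbits_bits, Option.getD_some] at h3
    rw [h3, List.mem_map]
    exact ⟨_, enu_mem _ _ (enu_adaptive _ _ _ _), rfl⟩

end Pool.Agent.H251R5.PQ
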