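import Pool.Agent.H251R5.PQ.Stm

set_option autoImplicit false

namespace Pool.Agent.H251R5.PQ

open Pool.Agent.NPC

/-- the polynomial with coefficients `w` -/
noncomputable def evPoly (p : ℕ) (w : List Bool) : Polynomial (ZMod p) :=
  w.foldr (fun b P => P * Polynomial.X + Polynomial.C ((b.toNat : ℕ) : ZMod p)) 0

theorem evPoly_cons (p : ℕ) (b : Bool) (w : List Bool) :
    evPoly p (b :: w) = evPoly p w * Polynomial.X + Polynomial.C ((b.toNat : ℕ) : ZMod p) := rfl

theorem ev_cast (p a : ℕ) (w : List Bool) :
    ((ev p a w : ℕ) : ZMod p) = (evPoly p w).eval (a : ZMod p) := by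
  induction w with
  | nil => simp [ev, evPoly]
  | cons b w ih =>
    have e : ev p a (b :: w) = (ev p a w * a + b.toNat) % p := rfl
    rw [e, evPoly_cons, ZMod.natCast_mod, Nat.cast_add, Nat.cast_mul, ih]
    simp

theorem evPoly_coeff_eq (p : ℕ) (w : List Bool) (m : ℕ) (hm : w.length ≤ m) :
    (evPoly p w).coeff m = 0 := by
  induction w generalizing m with
  | nil => simp [evPoly]
  | cons b w ih =>
    rw [List.length_cons] at hm
    obtain ⟨k, rfl⟩ : ∃ k, m = k + 1 := ⟨m - 1, by omega⟩
    rw [evPoly_cons, Polynomial.coeff_add, Polynomial.coeff_mul_X, ih k (by omega),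
      Polynomial.coeff_C_succ, zero_add]

theorem evPoly_inj {p : ℕ} (hp : p.Prime) (w w' : List Bool) (hl : w.length = w'.length)
    (h : evPoly p w = evPoly p w') : w = w' := by
  haveI : Fact p.Prime := ⟨hp⟩
  induction w generalizing w' with
  | nil =>
    rw [List.length_nil] at hl
    exact (List.length_eq_zero_iff.1 hl.symm).symm
  | cons b w ih =>
    cases w' with
    | nil => simp at hl
    | cons b' w' =>
      rw [evPoly_cons, evPoly_cons] at h
      have h0 : ((b.toNat : ℕ) : ZMod p) = ((b'.toNat : ℕ) : ZMod p) := by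
        have := congrArg (fun q => Polynomial.coeff q 0) h
        simpa using this
      have hb : b = b' := by
        have h01 : (0 : ZMod p) ≠ 1 := zero_ne_one
        cases b <;> cases b' <;> simp at h0 ⊢
      subst hb
      have h1 : evPoly p w * Polynomial.X = evPoly p w' * Polynomial.X := add_right_cancel h
      have h2 : evPoly p w = evPoly p w' := mul_right_cancel₀ Polynomial.X_ne_zero h1
      rw [ih w' (by simpa using hl) h2]

theorem t_EV : S_EV := by
  classical
  intro p n hp hn w w' hw hw' hne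
  haveI : Fact p.Prime := ⟨hp⟩
  have hP : evPoly p w - evPoly p w' ≠ 0 := fun h =>
    hne (evPoly_inj hp w w' (by rw [hw, hw']) (sub_eq_zero.1 h))
  have hdeg : (evPoly p w - evPoly p w').natDegree < n := by
    rw [Polynomial.natDegree_lt_iff_degree_lt hP, Polynomial.degree_lt_iff_coeff_zero]
    intro m hm
    rw [Polynomial.coeff_sub, evPoly_coeff_eq p w m (by omega), evPoly_coeff_eq p w' m (by omega),
      sub_zero]
  refine lt_of_le_of_lt ?_ hdeg
  refine le_trans ?_ (Polynomial.card_roots' _)
  refine le_trans ?_ (Multiset.toFinset_card_le _)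
  refine Finset.card_le_card_of_injOn (fun a => (a : ZMod p)) ?_ ?_
  · intro a ha
    have ha' := Finset.mem_filter.1 (Finset.mem_coe.1 ha)
    rw [Finset.mem_coe, Multiset.mem_toFinset, Polynomial.mem_roots hP, Polynomial.IsRoot.def,
      Polynomial.eval_sub, ← ev_cast, ← ev_cast, ha'.2, sub_self]
  · intro a ha b hb hab
    have ha' := Finset.mem_range.1 (Finset.mem_filter.1 (Finset.mem_coe.1 ha)).1
    have hb' := Finset.mem_range.1 (Finset.mem_filter.1 (Finset.mem_coe.1 hb)).1
    have hab' : ((a : ℕ) : ZMod p) = ((b : ℕ) : ZMod p) := hab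
    rw [ZMod.natCast_eq_natCast_iff'] at hab'
    rwa [Nat.mod_eq_of_lt ha', Nat.mod_eq_of_lt hb'] at hab'

end Pool.Agent.H251R5.PQ
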