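import Pool.Agent.H251R5.PQ.Stm

set_option autoImplicit false

namespace Pool.Agent.H251R5.PQ

open Pool.Agent.NPC

theorem t_FIL (hJB : S_JB) (hPR : S_PR) : S_FIL := by
  intro D x u i s hu hn hi hG X hX
  obtain ⟨h1, h2, h3, h4, h5⟩ := hG
  have hsp : sp s = pr u := by
    rw [sp, su, h2, List.length_replicate]
  refine hJB (pr u) (D.n x) (u ^ 2) s.2.2 X (hPR u (by omega)).1 (D.pos x)
    (fun P hP => (h5 P hP).1) h4 (fun P hP q hq => ((h5 P hP).2 q hq).1) ?_ ?_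
  · rw [h3, hi]
    have h6 : 1 ≤ u ^ 2 := Nat.one_le_pow _ _ (by omega)
    calc (2 * u ^ 2 + 1) * D.n x ≤ (3 * u ^ 2) * D.n x := Nat.mul_le_mul_right _ (by omega)
      _ = u ^ 2 * (3 * D.n x) := by ring
      _ ≤ u ^ 2 * u := Nat.mul_le_mul_left _ hn
      _ = u ^ 3 := by ring
  · intro w hw
    obtain ⟨ha, hb, hc⟩ := hX w hw
    rw [h1] at ha
    rw [hsp] at hc
    exact ⟨ha, hc⟩

end Pool.Agent.H251R5.PQ
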