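import Pool.Agent.H251R5.PQ.Stm

set_option autoImplicit false

namespace Pool.Agent.H251R5.PQ

open Pool.Agent.NPC

theorem find_ev_lt {p : ℕ} (hp : 0 < p) (a : ℕ) (w : List Bool) : ev p a w < p := by
  cases w with
  | nil => exact hp
  | cons b w =>
    unfold ev
    rw [List.foldr_cons]
    exact Nat.mod_lt _ hp

theorem t_FIND (hEV : S_EV) (hTRU : S_TRU) : S_FIND := by
  classical
  intro D E hE s hp X hX hne hcard
  obtain ⟨w, hw⟩ := hne
  have hwW := (hX w).1 hw
  set n := D.n s.1 with hn
  set p := sp s with hpd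
  have hn1 : 1 ≤ n := D.pos s.1
  have hp0 : 0 < p := hp.pos
  -- a position at which `w` differs from all other survivors
  have hA : ∃ a, a < p ∧ ∀ w' ∈ X, ev p a w' = ev p a w → w' = w := by
    by_contra hcon
    push Not at hcon
    have hsub : Finset.range p ⊆ (X.erase w).biUnion
        (fun w' => (Finset.range p).filter (fun a => ev p a w = ev p a w')) := by
      intro a ha
      obtain ⟨w', h1, h2, h3⟩ := hcon a (Finset.mem_range.1 ha)
      exact Finset.mem_biUnion.2 ⟨w', Finset.mem_erase.2 ⟨h3, h1⟩, Finset.mem_filter.2 ⟨ha, h2.symm⟩⟩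
    have h1 := (Finset.card_le_card hsub).trans Finset.card_biUnion_le
    rw [Finset.card_range] at h1
    have h2 : ∑ w' ∈ X.erase w, ((Finset.range p).filter (fun a => ev p a w = ev p a w')).card ≤
        (X.erase w).card * (n - 1) := by
      rw [← smul_eq_mul]
      refine Finset.sum_le_card_nsmul _ _ _ fun w' hw' => ?_
      rw [Finset.mem_erase] at hw'
      have h3 := hEV p n hp hn1 w w' hwW.1 ((hX w').1 hw'.2).1 hw'.1.symm
      omega
    rw [Finset.card_erase_of_mem hw] at h2
    have h3 : 1 ≤ X.card := Finset.card_pos.2 ⟨w, hw⟩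
    have h4 : (X.card - 1) * (n - 1) ≤ (X.card - 1) * n := Nat.mul_le_mul_left _ (Nat.sub_le _ _)
    have h5 : X.card * n = (X.card - 1) * n + n := by
      obtain ⟨c, hc⟩ : ∃ c, X.card = c + 1 := ⟨X.card - 1, by omega⟩
      rw [hc, Nat.add_sub_cancel]
      ring
    omega
  obtain ⟨a, ha, huniq⟩ := hA
  set y := ev p a w with hy
  have hyp : y < p := find_ev_lt hp0 a w
  have hval : ∀ b, b ≤ n → val n p (tru D s) a y b = w.getD b true := by
    intro b hb
    have h1 := hTRU D s a y b ha hyp hb
    rw [Bool.eq_iff_iff]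
    refine h1.trans ⟨?_, fun h => ⟨w, hwW, rfl, h⟩⟩
    rintro ⟨w', h2, h3, h4⟩
    rw [huniq w' ((hX w').2 h2) h3] at h4
    exact h4
  have hdec : dec n p (tru D s) a y = w := by
    unfold dec
    apply List.ext_getElem
    · rw [List.length_map, List.length_range, hwW.1]
    · intro i h1 h2
      rw [List.getElem_map, List.getElem_range]
      have h3 : i < n := by
        rw [List.length_map, List.length_range] at h1
        exact h1
      rw [hval i h3.le, List.getD_eq_getElem _ _ h2]
  unfold test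
  rw [List.any_eq_true]
  refine ⟨tru D s, hE.2 (qlist D s), ?_⟩
  rw [List.any_eq_true]
  refine ⟨a, List.mem_range.2 ha, ?_⟩
  rw [List.any_eq_true]
  refine ⟨y, List.mem_range.2 hyp, ?_⟩
  rw [← hn, ← hpd, hdec]
  exact hwW.2.1

end Pool.Agent.H251R5.PQ
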