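import Pool.Agent.H251R5.PQ.Stm

set_option autoImplicit false

namespace Pool.Agent.H251R5.PQ

open Pool.Agent.NPC

/-! Task GR (helper218): the greedy choice. -/

theorem gr_count (hf : List Bool → ℕ × ℕ → Bool) (Q : List (ℕ × ℕ)) (R : List (List Bool)) :
    (Q.map (fun q => (R.filter (fun h => hf h q)).length)).sum =
      (R.map (fun h => (Q.filter (hf h)).length)).sum := by
  induction R with
  | nil =>
    simp
  | cons h R ih =>
    rw [List.map_cons, List.sum_cons, ← ih]
    have h1 : ∀ q, ((h :: R).filter (fun h => hf h q)).length =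
        (if hf h q = true then 1 else 0) + (R.filter (fun h => hf h q)).length := by
      intro q
      by_cases hq : hf h q = true
      · rw [List.filter_cons_of_pos (p := fun h => hf h q) hq, List.length_cons, if_pos hq,
          add_comm]
      · rw [List.filter_cons_of_neg (p := fun h => hf h q) hq, if_neg hq, zero_add]
    have h2 : (Q.filter (hf h)).length = (Q.map (fun q => if hf h q = true then 1 else 0)).sum := by
      clear ih h1
      induction Q with
      | nil => rfl
      | cons q Q ihQ =>
        rw [List.map_cons, List.sum_cons, ← ihQ]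
        by_cases hq : hf h q = true
        · rw [List.filter_cons_of_pos hq, List.length_cons, if_pos hq, add_comm]
        · rw [List.filter_cons_of_neg hq, if_neg hq, zero_add]
    rw [h2, ← List.sum_map_add]
    congr 1
    exact List.map_congr_left (fun q _ => h1 q)

theorem gr_find (hf : List Bool → ℕ × ℕ → Bool) (m : ℕ) (Q : List (ℕ × ℕ))
    (R : List (List Bool)) (hQ : Q ≠ [])
    (h : ∀ h ∈ R, Q.length ≤ m * (Q.filter (hf h)).length) :
    ∃ q ∈ Q, R.length ≤ m * (R.filter (fun h => hf h q)).length := by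
  by_contra hcon
  push Not at hcon
  have h1 : ∀ (L : List (ℕ × ℕ)), (∀ q ∈ L, m * (R.filter (fun h => hf h q)).length < R.length) →
      L ≠ [] → m * (L.map (fun q => (R.filter (fun h => hf h q)).length)).sum < L.length * R.length := by
    intro L
    induction L with
    | nil => intro _ h; exact absurd rfl h
    | cons q L ih =>
      intro hL _
      rw [List.map_cons, List.sum_cons, List.length_cons, Nat.mul_add, Nat.succ_mul]
      have h2 := hL q (List.mem_cons_self)
      by_cases hL0 : L = []
      · subst hL0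
        simp only [List.map_nil, List.sum_nil, List.length_nil]
        omega
      · have h3 := ih (fun q hq => hL q (List.mem_cons_of_mem _ hq)) hL0
        omega
  have h2 := h1 Q hcon hQ
  rw [gr_count] at h2
  have h3 : ∀ (L : List (List Bool)), (∀ h ∈ L, Q.length ≤ m * (Q.filter (hf h)).length) →
      L.length * Q.length ≤ m * (L.map (fun h => (Q.filter (hf h)).length)).sum := by
    intro L
    induction L with
    | nil => intro _; simp
    | cons a L ih =>
      intro hL
      rw [List.map_cons, List.sum_cons, List.length_cons, Nat.mul_add, Nat.succ_mul]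
      have h4 := hL a (List.mem_cons_self)
      have h5 := ih (fun q hq => hL q (List.mem_cons_of_mem _ hq))
      omega
  have h4 := h3 R h
  rw [Nat.mul_comm] at h4
  omega

/-- the invariant of the greedy choice -/
structure GrInv (hf : List Bool → ℕ × ℕ → Bool) (m : ℕ) (Q : List (ℕ × ℕ))
    (R : List (List Bool)) (k : ℕ) (t : List (List Bool) × Blk) : Prop where
  a : ∀ q ∈ t.2, q ∈ Q
  b : ∀ h ∈ R, h ∈ t.1 ∨ ∃ q ∈ t.2, hf h q = true
  c : ∀ h ∈ t.1, h ∈ R
  d : t.1.length + k ≤ R.length ∨ t.1 = []
  e : m ^ t.2.length * t.1.length ≤ (m - 1) ^ t.2.length * R.length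
  f : t.2.length = 0 ∨ m ^ (t.2.length - 1) ≤ (m - 1) ^ (t.2.length - 1) * R.length

theorem gr_step (hf : List Bool → ℕ × ℕ → Bool) (m : ℕ) (Q : List (ℕ × ℕ))
    (R : List (List Bool)) (hm : 1 ≤ m) (hQ : Q ≠ [])
    (hR : ∀ h ∈ R, Q.length ≤ m * (Q.filter (hf h)).length) (k : ℕ)
    (t : List (List Bool) × Blk) (ht : GrInv hf m Q R k t) :
    GrInv hf m Q R (k + 1) (gstep hf m Q t) := by
  unfold gstep
  by_cases h0 : t.1.isEmpty = true
  · rw [if_pos h0]
    rw [List.isEmpty_iff] at h0
    exact ⟨ht.a, ht.b, ht.c, Or.inr h0, ht.e, ht.f⟩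
  · rw [if_neg h0]
    rw [List.isEmpty_iff] at h0
    obtain ⟨q0, hq0, hq0'⟩ := gr_find hf m Q t.1 hQ (fun h hh => hR h (ht.c h hh))
    have hne : (Q.filter (fun q => decide (t.1.length ≤ m * (t.1.filter (fun h => hf h q)).length))) ≠ [] := by
      intro h
      have : q0 ∈ Q.filter (fun q => decide (t.1.length ≤ m * (t.1.filter (fun h => hf h q)).length)) :=
        List.mem_filter.2 ⟨hq0, decide_eq_true hq0'⟩
      rw [h] at this
      exact absurd this List.not_mem_nil
    obtain ⟨q, hq⟩ : ∃ q, (Q.filter (fun q => decide (t.1.length ≤ m * (t.1.filter (fun h => hf h q)).length))).head? = some q := by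
      obtain ⟨q, L, hL⟩ := List.exists_cons_of_ne_nil hne
      exact ⟨q, by rw [hL]; rfl⟩
    rw [hq]
    have hqm := List.mem_filter.1 (List.mem_of_mem_head? (by rw [hq]; rfl))
    have hqQ := hqm.1
    have hqc := of_decide_eq_true hqm.2
    simp only [Option.elim]
    have hlen : (t.1.filter (fun h => !(hf h q))).length + (t.1.filter (fun h => hf h q)).length =
        t.1.length := by
      have := List.length_eq_length_filter_add (l := t.1) (fun h => hf h q)
      omega
    have hpos : 0 < t.1.length := List.length_pos_of_ne_nil h0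
    have hcpos : 0 < (t.1.filter (fun h => hf h q)).length := by
      rcases Nat.eq_zero_or_pos (t.1.filter (fun h => hf h q)).length with h | h
      · rw [h, Nat.mul_zero] at hqc; omega
      · exact h
    set c := (t.1.filter (fun h => hf h q)).length with hc
    set r := (t.1.filter (fun h => !(hf h q))).length with hr
    obtain ⟨m', rfl⟩ : ∃ m', m = m' + 1 := ⟨m - 1, by omega⟩
    have hmr : (m' + 1) * r ≤ m' * t.1.length := by
      have e1 : (m' + 1) * r + (m' + 1) * c = (m' + 1) * t.1.length := by
        rw [← Nat.mul_add, hlen]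
      have e2 : (m' + 1) * t.1.length = m' * t.1.length + t.1.length := by ring
      omega
    refine ⟨?_, ?_, ?_, ?_, ?_, ?_⟩
    · intro q' hq'
      rcases List.mem_cons.1 hq' with h | h
      · rw [h]; exact hqQ
      · exact ht.a q' h
    · intro h hh
      rcases ht.b h hh with h1 | ⟨q', h1, h2⟩
      · by_cases h2 : hf h q = true
        · exact Or.inr ⟨q, List.mem_cons_self, h2⟩
        · left
          rw [List.mem_filter]
          exact ⟨h1, by simp [h2]⟩
      · exact Or.inr ⟨q', List.mem_cons_of_mem _ h1, h2⟩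
    · intro h hh
      exact ht.c h (List.mem_filter.1 hh).1
    · left
      rcases ht.d with h | h
      · show r + (k + 1) ≤ R.length
        omega
      · exact absurd h h0
    · show (m' + 1) ^ (q :: t.2).length * r ≤ (m' + 1 - 1) ^ (q :: t.2).length * R.length
      have he := ht.e
      rw [Nat.add_sub_cancel] at he ⊢
      rw [List.length_cons]
      calc (m' + 1) ^ (t.2.length + 1) * r = (m' + 1) ^ t.2.length * ((m' + 1) * r) := by ring
        _ ≤ (m' + 1) ^ t.2.length * (m' * t.1.length) := Nat.mul_le_mul_left _ hmr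
        _ = m' * ((m' + 1) ^ t.2.length * t.1.length) := by ring
        _ ≤ m' * (m' ^ t.2.length * R.length) := Nat.mul_le_mul_left _ he
        _ = m' ^ (t.2.length + 1) * R.length := by ring
    · right
      show (m' + 1) ^ ((q :: t.2).length - 1) ≤ (m' + 1 - 1) ^ ((q :: t.2).length - 1) * R.length
      rw [List.length_cons, Nat.add_sub_cancel]
      exact le_trans (Nat.le_mul_of_pos_right _ hpos) ht.e

theorem gr_iter (hf : List Bool → ℕ × ℕ → Bool) (m : ℕ) (Q : List (ℕ × ℕ))
    (R : List (List Bool)) (hm : 1 ≤ m) (hQ : Q ≠ [])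
    (hR : ∀ h ∈ R, Q.length ≤ m * (Q.filter (hf h)).length) (k : ℕ) :
    GrInv hf m Q R k ((gstep hf m Q)^[k] (R, [])) := by
  induction k with
  | zero =>
    refine ⟨?_, fun h hh => Or.inl hh, fun h hh => hh, Or.inl (by simp), ?_, Or.inl rfl⟩
    · intro q hq
      exact absurd hq List.not_mem_nil
    · simp
  | succ k ih =>
    rw [Function.iterate_succ_apply']
    exact gr_step hf m Q R hm hQ hR k _ ih

theorem gr_pow (m : ℕ) (hm : 1 ≤ m) : 2 * (m - 1) ^ m ≤ m ^ m := by
  obtain ⟨n, rfl⟩ : ∃ n, m = n + 1 := ⟨m - 1, by omega⟩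
  rw [Nat.add_sub_cancel]
  -- Bernoulli by induction
  have h : ∀ k : ℕ, n ^ k * (n + k) ≤ n * (n + 1) ^ k := by
    intro k
    induction k with
    | zero => simp
    | succ k ih =>
      calc n ^ (k + 1) * (n + (k + 1)) = n ^ k * (n * (n + (k + 1))) := by ring
        _ ≤ n ^ k * ((n + k) * (n + 1)) := by
            apply Nat.mul_le_mul_left
            nlinarith
        _ = (n ^ k * (n + k)) * (n + 1) := by ring
        _ ≤ (n * (n + 1) ^ k) * (n + 1) := Nat.mul_le_mul_right _ ih
        _ = n * (n + 1) ^ (k + 1) := by ring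
  rcases Nat.eq_zero_or_pos n with h0 | h0
  · subst h0; simp
  · have h1 := h (n + 1)
    have h2 : n * (2 * n ^ (n + 1)) ≤ n * (n + 1) ^ (n + 1) := by
      refine le_trans ?_ h1
      calc n * (2 * n ^ (n + 1)) = n ^ (n + 1) * (2 * n) := by ring
        _ ≤ n ^ (n + 1) * (n + (n + 1)) := Nat.mul_le_mul_left _ (by omega)
    exact Nat.le_of_mul_le_mul_left h2 h0

theorem t_GR : S_GR := by
  intro hf m Q R hm hQ hR
  have hI := gr_iter hf m Q R hm hQ hR R.length
  have hP : greedy hf m Q R = ((gstep hf m Q)^[R.length] (R, [])).2 := rfl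
  set t := (gstep hf m Q)^[R.length] (R, []) with ht
  rw [hP]
  have hemp : t.1 = [] := by
    rcases hI.d with h | h
    · exact List.length_eq_zero_iff.1 (by omega)
    · exact h
  refine ⟨hI.a, ?_, ?_⟩
  · intro h hh
    rcases hI.b h hh with h1 | h1
    · rw [hemp] at h1
      exact absurd h1 List.not_mem_nil
    · exact h1
  · by_contra hcon
    push Not at hcon
    set k := Nat.log 2 R.length + 1 with hk
    have hlt : R.length < 2 ^ k := Nat.lt_pow_succ_log_self (by norm_num) _
    have hk1 : 1 ≤ k := by omega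
    have hmk : 1 ≤ m * k := Nat.mul_pos hm hk1
    rcases hI.f with h | h
    · omega
    · obtain ⟨j, hj⟩ : ∃ j, t.2.length - 1 = m * k + j := ⟨t.2.length - 1 - m * k, by omega⟩
      rw [hj] at h
      have h1 : (2 * (m - 1) ^ m) ^ k ≤ (m ^ m) ^ k := Nat.pow_le_pow_left (gr_pow m hm) k
      have h2 : 2 ^ k * (m - 1) ^ (m * k) ≤ m ^ (m * k) := by
        rw [Nat.mul_pow, ← Nat.pow_mul, ← Nat.pow_mul] at h1
        exact h1
      rcases Nat.eq_zero_or_pos (m - 1) with h0 | h0
      · rw [h0, Nat.zero_pow (by omega), Nat.zero_mul] at h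
        have : 0 < m ^ (m * k + j) := Nat.pow_pos hm
        omega
      · have h3 : 0 < (m - 1) ^ (m * k + j) := Nat.pow_pos h0
        have h4 : (m - 1) ^ (m * k + j) * R.length < (m - 1) ^ (m * k + j) * 2 ^ k :=
          Nat.mul_lt_mul_of_pos_left hlt h3
        have h5 : (m - 1) ^ (m * k + j) * 2 ^ k ≤ m ^ (m * k + j) := by
          rw [Nat.pow_add (m - 1), Nat.pow_add m]
          calc (m - 1) ^ (m * k) * (m - 1) ^ j * 2 ^ k
              = (2 ^ k * (m - 1) ^ (m * k)) * (m - 1) ^ j := by ring
            _ ≤ m ^ (m * k) * m ^ j :=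
                Nat.mul_le_mul h2 (Nat.pow_le_pow_left (Nat.sub_le _ _) j)
        omega

end Pool.Agent.H251R5.PQ
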