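import Pool.Agent.H251R5.PQ.Stm

set_option autoImplicit false

namespace Pool.Agent.H251R5.PQ

open Pool.Agent.NPC

theorem inv_greedy_nil (hf : List Bool → ℕ × ℕ → Bool) (m : ℕ) (R : List (List Bool)) :
    greedy hf m [] R = [] := by
  have h : ∀ t : List (List Bool) × Blk, gstep hf m [] t = t := by
    intro t
    unfold gstep
    split_ifs <;> simp
  have h' : ∀ (k : ℕ) (t : List (List Bool) × Blk), (gstep hf m [])^[k] t = t := by
    intro k
    induction k with
    | zero => intro t; rfl
    | succ k ih => intro t; rw [Function.iterate_succ_apply, h, ih]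
  unfold greedy
  rw [h']

theorem inv_mem_pts {s : St} {q : ℕ × ℕ} (hq : q ∈ pts s) :
    q.1 < sp s ∧ q.2 < sp s ∧ ∀ P ∈ s.2.2, ∀ r ∈ P, r.1 ≠ q.1 := by
  unfold pts at hq
  rw [List.mem_filter, List.mem_map] at hq
  obtain ⟨⟨i, hi, rfl⟩, h2⟩ := hq
  rw [List.mem_range] at hi
  have hp : 0 < sp s := by
    rcases Nat.eq_zero_or_pos (sp s) with h | h
    · rw [h] at hi; omega
    · exact h
  refine ⟨Nat.div_lt_of_lt_mul hi, Nat.mod_lt _ hp, ?_⟩
  intro P hP r hr
  rw [List.all_eq_true] at h2
  have h3 := h2 P hP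
  rw [List.all_eq_true] at h3
  exact of_decide_eq_true (h3 r hr)

theorem inv_block_mem (hGR : S_GR) (D : Ver) (E : List (List Bool) → List (List Bool)) (s : St) :
    (∀ q ∈ block D E s, q ∈ pts s) ∧
      (block D E s).length ≤ 32 * D.n s.1 * (Nat.log 2 (E (qlist D s)).length + 1) := by
  by_cases hpt : pts s = []
  · have hb : block D E s = [] := by
      unfold block
      rw [hpt]
      exact inv_greedy_nil _ _ _
    rw [hb]
    refine ⟨fun q hq => by simp at hq, by simp⟩
  · have h := hGR (hit (D.n s.1) (sp s)) (32 * D.n s.1) (pts s) (heavy D E s)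
      (by have := D.pos s.1; omega) hpt (by
        intro h hh
        unfold heavy at hh
        rw [List.mem_filter] at hh
        exact of_decide_eq_true hh.2)
    refine ⟨h.1, h.2.2.trans ?_⟩
    refine Nat.mul_le_mul_left _ (Nat.succ_le_succ (Nat.log_mono_right ?_))
    exact List.length_filter_le _ _

theorem t_INV (hGR : S_GR) (hLG : S_LG) (hSZ : S_SZ) (hPR : S_PR) (hPQL : S_PQL) : S_INV := by
  intro D E hE
  obtain ⟨S, hS⟩ := hSZ
  have hEq : Poly (fun s => E (qlist D s)) := hE.comp (hPQL D)
  obtain ⟨T, hT⟩ := hEq.sz_le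
  obtain ⟨u0', hu0'⟩ := hLG (T.comp S)
  refine ⟨max 2 u0', fun u0 hu0 x => ?_⟩
  set u := par D u0 x with hu
  have hu_ge : max 2 u0' ≤ u := by
    rw [hu]
    unfold par
    omega
  have hu2 : 2 ≤ u := le_trans (le_max_left _ _) hu_ge
  have hu0u : u0' ≤ u := le_trans (le_max_right _ _) hu_ge
  have hxu : x.length ≤ u := by
    rw [hu]
    unfold par
    omega
  have hnu : D.n x ≤ u := by
    rw [hu]
    unfold par
    omega
  have hpr := hPR u (by omega)
  intro i
  induction i with
  | zero =>
    intro _
    refine ⟨rfl, rfl, rfl, ?_, ?_⟩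
    · exact List.Pairwise.nil
    · intro P hP
      simp [ini] at hP
  | succ i ih =>
    intro hi
    obtain ⟨g1, g2, g3, g4, g5⟩ := ih (by omega)
    rw [Function.iterate_succ_apply']
    set s := (nxt D E)^[i] (ini D u0 x) with hs
    have hsu : su s = u := by
      unfold su
      rw [g2, List.length_replicate]
    have hsp : sp s = pr u := by
      unfold sp
      rw [hsu]
    have hsz : sz s ≤ S.eval u := by
      refine hS s u (by rw [g1]; exact hxu) (by rw [g2, List.length_replicate])
        (by rw [g3]; omega) ?_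
      intro P hP
      refine ⟨(g5 P hP).1, fun q hq => ?_⟩
      have := (g5 P hP).2 q hq
      omega
    have hlen : (E (qlist D s)).length ≤ (T.comp S).eval u := by
      rw [Polynomial.eval_comp]
      calc (E (qlist D s)).length ≤ sz (E (qlist D s)) := (length_lt_sz _).le
        _ ≤ T.eval (sz s) := hT s
        _ ≤ T.eval (S.eval u) := eval_mono T hsz
    obtain ⟨b1, b2⟩ := inv_block_mem hGR D E s
    have hbl : (block D E s).length ≤ u ^ 2 := by
      refine b2.trans ?_
      have h1 : 32 * (Nat.log 2 (E (qlist D s)).length + 1) ≤ u :=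
        le_trans (Nat.mul_le_mul_left _ (Nat.succ_le_succ (Nat.log_mono_right hlen)))
          (hu0' u hu0u)
      calc 32 * D.n s.1 * (Nat.log 2 (E (qlist D s)).length + 1)
          = D.n x * (32 * (Nat.log 2 (E (qlist D s)).length + 1)) := by rw [g1]; ring
        _ ≤ u * u := Nat.mul_le_mul hnu h1
        _ = u ^ 2 := (sq u).symm
    refine ⟨g1, g2, ?_, ?_, ?_⟩
    · change (s.2.2 ++ [block D E s]).length = i + 1
      rw [List.length_append, g3]
      rfl
    · change (s.2.2 ++ [block D E s]).Pairwise _
      rw [List.pairwise_append]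
      refine ⟨g4, List.pairwise_singleton _ _, ?_⟩
      intro P hP P' hP' q hq q' hq'
      rw [List.mem_singleton] at hP'
      subst hP'
      exact (inv_mem_pts (b1 q' hq')).2.2 P hP q hq
    · intro P hP
      change P ∈ s.2.2 ++ [block D E s] at hP
      rw [List.mem_append, List.mem_singleton] at hP
      rcases hP with hP | rfl
      · exact g5 P hP
      · refine ⟨hbl, fun q hq => ?_⟩
        have h := inv_mem_pts (b1 q hq)
        rw [hsp] at h
        exact ⟨h.1, h.2.1⟩

end Pool.Agent.H251R5.PQ
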