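import Pool.Agent.H251R5.PQ.Stm

/-!
# Task JB: Johnson type bound for strings through blocks (helper409)
-/

set_option autoImplicit false

namespace Pool.Agent.H251R5.PQ

open Pool.Agent.NPC Finset

/-- collisions of a map from a set of `2 l + 1` elements to a set of at most `l` elements -/
theorem jb_block {α β : Type*} [DecidableEq α] [DecidableEq β] (X : Finset α) (Q : Finset β)
    (l : ℕ) (hX : X.card = 2 * l + 1) (hQ : Q.card ≤ l) (f : α → β) (hf : ∀ w ∈ X, f w ∈ Q) :
    2 * l + 2 ≤ (X.offDiag.filter fun p => f p.1 = f p.2).card := by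
  have h1 : ((X ×ˢ X).filter fun p => f p.1 = f p.2).card =
      ∑ q ∈ Q, (X.filter fun w => f w = q).card ^ 2 := by
    rw [Finset.card_eq_sum_card_fiberwise (f := fun p : α × α => f p.1) (t := Q)
      (fun p hp => hf _ (mem_product.1 (mem_filter.1 hp).1).1)]
    refine sum_congr rfl fun q _ => ?_
    rw [sq, ← card_product]
    congr 1
    ext ⟨a, b⟩
    simp only [mem_filter, mem_product]
    constructor
    · rintro ⟨⟨⟨h1, h2⟩, h3⟩, h4⟩
      exact ⟨⟨h1, h4⟩, h2, h3 ▸ h4⟩
    · rintro ⟨⟨h1, h4⟩, h2, h3⟩
      exact ⟨⟨⟨h1, h2⟩, h4.trans h3.symm⟩, h4⟩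
  have h2 : X.card = ∑ q ∈ Q, (X.filter fun w => f w = q).card :=
    Finset.card_eq_sum_card_fiberwise (f := f) (fun w hw => hf w hw)
  have h3 : 3 * X.card ≤ ((X ×ˢ X).filter fun p => f p.1 = f p.2).card + 2 * Q.card := by
    rw [h1, h2, mul_sum, Finset.card_eq_sum_ones Q, mul_sum, ← sum_add_distrib]
    refine sum_le_sum fun q _ => ?_
    generalize (X.filter fun w => f w = q).card = m
    rcases m with _ | _ | m
    · simp
    · simp
    · nlinarith
  have h4 : ((X ×ˢ X).filter fun p => f p.1 = f p.2).card =
      (X.offDiag.filter fun p => f p.1 = f p.2).card + X.card := by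
    rw [← Finset.diag_union_offDiag, filter_union, card_union_of_disjoint]
    · have : X.diag.filter (fun p => f p.1 = f p.2) = X.diag := by
        apply filter_true_of_mem
        rintro ⟨a, b⟩ hab
        have := (mem_diag.1 hab).2
        simp only at this ⊢
        rw [this]
      rw [this, diag_card]
      ring
    · exact (Finset.disjoint_diag_offDiag X).mono (filter_subset _ _) (filter_subset _ _)
  omega

theorem t_JB (hEV : S_EV) : S_JB := by
  classical
  intro p n l B X hp hn hlen hpair hlt ht hX
  by_contra hcon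
  push Not at hcon
  obtain ⟨X', hX'X, hX'⟩ := Finset.exists_subset_card_eq (show 2 * l + 1 ≤ X.card by omega)
  -- the points
  have hex : ∀ (s : Fin B.length) (w : List Bool), ∃ q : ℕ × ℕ, w ∈ X' →
      q ∈ B.get s ∧ ev p q.1 w = q.2 := by
    intro s w
    by_cases hw : w ∈ X'
    · have hP := (hX w (hX'X hw)).2
      unfold Pass at hP
      rw [List.all_eq_true] at hP
      have := hP (B.get s) (List.get_mem _ _)
      rw [List.any_eq_true] at this
      obtain ⟨q, hq, hq2⟩ := this
      exact ⟨q, fun _ => ⟨hq, of_decide_eq_true hq2⟩⟩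
    · exact ⟨(0, 0), fun h => absurd h hw⟩
  choose f hf using hex
  -- many collisions in every block
  have hmany : ∀ s : Fin B.length, 2 * l + 2 ≤
      (X'.offDiag.filter fun u => f s u.1 = f s u.2).card := by
    intro s
    refine jb_block X' (B.get s).toFinset l hX' ?_ (f s) fun w hw =>
      List.mem_toFinset.2 (hf s w hw).1
    exact (List.toFinset_card_le _).trans (hlen _ (List.get_mem _ _))
  -- few collisions for every pair
  have hfew : ∀ u ∈ X'.offDiag, ((univ : Finset (Fin B.length)).filter
      fun s => f s u.1 = f s u.2).card ≤ n - 1 := by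
    rintro ⟨w, w'⟩ hu
    obtain ⟨hw, hw', hne⟩ := mem_offDiag.1 hu
    simp only at hw hw' hne ⊢
    have h1 := hEV p n hp hn w w' (hX w (hX'X hw)).1 (hX w' (hX'X hw')).1 hne
    have h2 : ((univ : Finset (Fin B.length)).filter fun s => f s w = f s w').card ≤
        ((Finset.range p).filter (fun a => ev p a w = ev p a w')).card := by
      refine card_le_card_of_injOn (fun s => (f s w).1) ?_ ?_
      · intro s hs
        have hs' : f s w = f s w' := (mem_filter.1 hs).2
        refine mem_filter.2 ⟨mem_range.2 (hlt _ (List.get_mem _ _) _ (hf s w hw).1), ?_⟩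
        change ev p (f s w).1 w = ev p (f s w).1 w'
        rw [(hf s w hw).2, hs', (hf s w' hw').2]
      · intro s _ s' _ hss
        simp only at hss
        by_contra hne'
        rcases lt_or_gt_of_ne hne' with h | h
        · exact (List.pairwise_iff_get.1 hpair s s' h) _ (hf s w hw).1 _ (hf s' w hw).1 hss
        · exact (List.pairwise_iff_get.1 hpair s' s h) _ (hf s' w hw).1 _ (hf s w hw).1 hss.symm
    omega
  have hsum : ∑ s : Fin B.length, (X'.offDiag.filter fun u => f s u.1 = f s u.2).card =
      ∑ u ∈ X'.offDiag, ((univ : Finset (Fin B.length)).filter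
        fun s => f s u.1 = f s u.2).card := by
    simp only [card_filter]
    rw [sum_comm]
  have h1 : B.length * (2 * l + 2) ≤
      ∑ s : Fin B.length, (X'.offDiag.filter fun u => f s u.1 = f s u.2).card := by
    have := Finset.sum_le_sum (s := (univ : Finset (Fin B.length))) fun s _ => hmany s
    rwa [sum_const, card_univ, Fintype.card_fin, smul_eq_mul] at this
  have h2 : ∑ u ∈ X'.offDiag, ((univ : Finset (Fin B.length)).filter
        fun s => f s u.1 = f s u.2).card ≤ ((2 * l + 1) * (2 * l)) * (n - 1) := by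
    have := Finset.sum_le_sum hfew
    rw [sum_const, offDiag_card, hX', smul_eq_mul] at this
    refine this.trans (Nat.mul_le_mul_right _ ?_)
    rw [Nat.sub_le_iff_le_add]
    apply le_of_eq
    ring
  rw [hsum] at h1
  have h3 := h1.trans h2
  obtain ⟨k, rfl⟩ : ∃ k, n = k + 1 := ⟨n - 1, by omega⟩
  rw [Nat.add_sub_cancel] at h3
  have h4 : (2 * l + 1) * (k + 1) * (2 * l + 2) ≤ B.length * (2 * l + 2) :=
    Nat.mul_le_mul_right _ ht
  have h5 := h4.trans h3
  nlinarith [Nat.zero_le l, Nat.zero_le k, Nat.zero_le (l * k), Nat.zero_le (l * l * k)]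

end Pool.Agent.H251R5.PQ
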