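import Pool.Agent.H251R5.PQ.Stm

/-!
# Parallel queries to `NP`: one level of the algorithm
-/

set_option autoImplicit false

namespace Pool.Agent.H251R5.PQ

open Pool.Agent.NPC

theorem lev_mem_pts (s : St) (q : ℕ × ℕ) :
    q ∈ pts s ↔ (q.1 < sp s ∧ q.2 < sp s) ∧ ∀ P ∈ s.2.2, ∀ r ∈ P, r.1 ≠ q.1 := by
  unfold pts
  rw [List.mem_filter]
  constructor
  · rintro ⟨h1, h2⟩
    rw [List.mem_map] at h1
    obtain ⟨i, hi, rfl⟩ := h1
    rw [List.mem_range] at hi
    have hp : 0 < sp s := by
      rcases Nat.eq_zero_or_pos (sp s) with h | h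
      · rw [h] at hi
        omega
      · exact h
    refine ⟨⟨Nat.div_lt_of_lt_mul hi, Nat.mod_lt _ hp⟩, ?_⟩
    intro P hP r hr
    rw [List.all_eq_true] at h2
    have h3 := h2 P hP
    rw [List.all_eq_true] at h3
    exact of_decide_eq_true (h3 r hr)
  · rintro ⟨⟨h1, h1'⟩, h2⟩
    refine ⟨?_, ?_⟩
    · rw [List.mem_map]
      refine ⟨q.1 * sp s + q.2, ?_, ?_⟩
      · rw [List.mem_range]
        have : (q.1 + 1) * sp s ≤ sp s * sp s := Nat.mul_le_mul_right _ h1
        rw [add_mul, one_mul] at this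
        omega
      · have hp : 0 < sp s := by omega
        apply Prod.ext
        · show (q.1 * sp s + q.2) / sp s = q.1
          rw [mul_comm, Nat.mul_add_div hp, Nat.div_eq_of_lt h1', add_zero]
        · show (q.1 * sp s + q.2) % sp s = q.2
          rw [mul_comm, Nat.mul_add_mod, Nat.mod_eq_of_lt h1']
    · rw [List.all_eq_true]
      intro P hP
      rw [List.all_eq_true]
      intro r hr
      exact decide_eq_true (h2 P hP r hr)

theorem lev_pts_ne (s : St) (hp : 0 < sp s) (hs : 2 * (s.2.2.map List.length).sum ≤ sp s) :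
    pts s ≠ [] := by
  classical
  have h1 : ((s.2.2.flatten.map Prod.fst).toFinset).card < (Finset.range (sp s)).card := by
    rw [Finset.card_range]
    refine lt_of_le_of_lt (List.toFinset_card_le _) ?_
    rw [List.length_map, List.length_flatten]
    omega
  obtain ⟨a, ha, ha'⟩ := Finset.exists_mem_notMem_of_card_lt_card h1
  have h2 : ((a, 0) : ℕ × ℕ) ∈ pts s := by
    rw [lev_mem_pts]
    refine ⟨⟨Finset.mem_range.1 ha, hp⟩, fun P hP r hr h => ha' ?_⟩
    rw [List.mem_toFinset, List.mem_map]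
    exact ⟨r, List.mem_flatten.2 ⟨P, hP, hr⟩, h⟩
  exact List.ne_nil_of_mem h2

theorem t_LEV (hTRU : S_TRU) (hFIND : S_FIND) (hSPA : S_SPA) (hGR : S_GR) : S_LEV := by
  intro D E hE s hp h8 h2 hw htest
  have hn := D.pos s.1
  have hmem : tru D s ∈ E (qlist D s) := hE.2 (qlist D s)
  by_cases hc : 32 * D.n s.1 * ((pts s).filter (hit (D.n s.1) (sp s) (tru D s))).length <
      (pts s).length
  · exfalso
    -- the finset of the surviving witnesses
    have hfin : {w : List Bool | IsW D s w}.Finite :=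
      (List.finite_length_eq Bool (D.n s.1)).subset fun w hw => hw.1
    have hX : ∀ w, w ∈ hfin.toFinset ↔ IsW D s w := fun w => hfin.mem_toFinset
    have h3 := hSPA D s hp h8 h2 hc hfin.toFinset fun w hw => (hX w).1 hw
    obtain ⟨w, hw⟩ := hw
    have h4 := hFIND D E hE s hp hfin.toFinset hX ⟨w, (hX w).2 hw⟩ (by
      refine (Nat.mul_le_mul_right _ h3).trans ?_
      have h5 : sp s / (16 * D.n s.1) * (16 * D.n s.1) ≤ sp s := Nat.div_mul_le_self _ _
      nlinarith [Nat.zero_le (sp s / (16 * D.n s.1) * D.n s.1)])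
    rw [htest] at h4
    exact Bool.false_ne_true h4
  · push Not at hc
    have hheavy : tru D s ∈ heavy D E s := by
      unfold heavy
      rw [List.mem_filter]
      exact ⟨hmem, decide_eq_true hc⟩
    obtain ⟨g1, g2, _⟩ := hGR (hit (D.n s.1) (sp s)) (32 * D.n s.1) (pts s) (heavy D E s)
      (by omega) (lev_pts_ne s hp.pos h2) (by
        intro h hh
        unfold heavy at hh
        rw [List.mem_filter] at hh
        exact of_decide_eq_true hh.2)
    obtain ⟨q, hq, hqt⟩ := g2 _ hheavy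
    have hqp := (lev_mem_pts s q).1 (g1 q hq)
    obtain ⟨w, hw1, hw2, _⟩ := (hTRU D s q.1 q.2 (D.n s.1) hqp.1.1 hqp.1.2 le_rfl).1 hqt
    refine ⟨w, hw1.1, hw1.2.1, ?_⟩
    show Pass (sp s) (s.2.2 ++ [block D E s]) w = true
    unfold Pass
    rw [List.all_append, Bool.and_eq_true]
    refine ⟨hw1.2.2, ?_⟩
    rw [List.all_cons, List.all_nil, Bool.and_true, List.any_eq_true]
    exact ⟨q, hq, decide_eq_true hw2⟩

end Pool.Agent.H251R5.PQ
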