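import Pool.Agent.H251R5.PQ.Stm

set_option autoImplicit false

namespace Pool.Agent.H251R5.PQ

open Pool.Agent.NPC

theorem lg_mono (G : Polynomial ℕ) {u v : ℕ} (h : u ≤ v) : G.eval u ≤ G.eval v := by
  induction G using Polynomial.induction_on' with
  | add p q hp hq => rw [Polynomial.eval_add, Polynomial.eval_add]; exact add_le_add hp hq
  | monomial n a =>
    rw [Polynomial.eval_monomial, Polynomial.eval_monomial]
    exact Nat.mul_le_mul_left _ (Nat.pow_le_pow_left h n)

theorem lg_tendsto (G : Polynomial ℕ) :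
    Filter.Tendsto (fun v : ℕ => ((G.eval v : ℕ) : ℝ) / 2 ^ v) Filter.atTop (nhds 0) := by
  induction G using Polynomial.induction_on' with
  | add p q hp hq =>
    have h := hp.add hq
    rw [add_zero] at h
    refine h.congr fun v => ?_
    rw [Polynomial.eval_add]
    push_cast
    ring
  | monomial n a =>
    have h := (tendsto_pow_const_div_const_pow_of_one_lt n (show (1 : ℝ) < 2 by norm_num)).const_mul
      (a : ℝ)
    rw [mul_zero] at h
    refine h.congr fun v => ?_
    rw [Polynomial.eval_monomial]
    push_cast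
    ring

theorem t_LG : S_LG := by
  intro G
  have h := (lg_tendsto (G.comp (Polynomial.C 32 * Polynomial.X + Polynomial.C 31))).eventually
    (gt_mem_nhds (show (0 : ℝ) < 1 by norm_num))
  obtain ⟨v0, hv0⟩ := Filter.eventually_atTop.1 h
  refine ⟨32 * (v0 + 1), fun u hu => ?_⟩
  have h1 := hv0 (u / 32) (by omega)
  rw [div_lt_one (by positivity)] at h1
  have h2 : (G.comp (Polynomial.C 32 * Polynomial.X + Polynomial.C 31)).eval (u / 32)
      < 2 ^ (u / 32) := by exact_mod_cast h1
  rw [Polynomial.eval_comp] at h2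
  simp only [Polynomial.eval_add, Polynomial.eval_mul, Polynomial.eval_C, Polynomial.eval_X] at h2
  have h3 : G.eval u ≤ G.eval (32 * (u / 32) + 31) := lg_mono G (by omega)
  have h4 : G.eval u < 2 ^ (u / 32) := lt_of_le_of_lt h3 h2
  have h5 : Nat.log 2 (G.eval u) < u / 32 := by
    rcases Nat.eq_zero_or_pos (G.eval u) with h0 | h0
    · rw [h0, Nat.log_zero_right]
      omega
    · exact Nat.log_lt_of_lt_pow (by omega) h4
  omega

end Pool.Agent.H251R5.PQ
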