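import Pool.Agent.H251R5.PQ.Stm

set_option autoImplicit false

namespace Pool.Agent.H251R5.PQ

open Pool.Agent.NPC

theorem t_NPQ (hPEV : S_PEV) : S_NPQ := by
  intro D
  have hn : Poly D.n := D.hn.toPoly
  obtain ⟨q, hq⟩ := D.hn.sz_le
  have hx : Poly (fun z : (St × ℕ) × List Bool => z.1.1.1) :=
    Poly.fst (Poly.fst (Poly.fst Poly.id))
  have hw : Poly (fun z : (St × ℕ) × List Bool => z.2) := Poly.snd Poly.id
  have hu : Poly (fun z : (St × ℕ) × List Bool => z.1.1.2.1) :=
    Poly.fst (Poly.snd (Poly.fst (Poly.fst Poly.id)))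
  have hB : Poly (fun z : (St × ℕ) × List Bool => z.1.1.2.2) :=
    Poly.snd (Poly.snd (Poly.fst (Poly.fst Poly.id)))
  have hb : Poly (fun z : (St × ℕ) × List Bool => z.1.2) := Poly.snd (Poly.fst Poly.id)
  have hR : Poly (fun z : (St × ℕ) × List Bool => decide (z.2.length = D.n z.1.1.1) &&
      (D.V z.1.1.1 z.2 && (Pass (pr z.1.1.2.1.length) z.1.1.2.2 z.2 && z.2.getD z.1.2 true))) := by
    refine Poly.and (Poly.decide_eq (Poly.length hw) (hn.comp hx)) (Poly.and ?_ (Poly.and ?_ ?_))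
    · exact Poly.comp (f := fun z : (St × ℕ) × List Bool => (z.1.1.1, z.2)) D.hV
        (Poly.pair hx hw)
    · exact Poly.comp (f := fun z : (St × ℕ) × List Bool => (z.1.1.2.1, z.1.1.2.2, z.2)) hPEV
        (Poly.pair hu (Poly.pair hB hw))
    · exact NPC.Poly.getD hw hb (NPC.Poly.const (true : Bool))
  refine inNPP_of hR (4 * q + 1) fun t => ?_
  unfold Qry IsW
  constructor
  · rintro ⟨w, ⟨h1, h2, h3⟩, h4⟩
    refine ⟨w, ?_, ?_⟩
    · have e1 := sz_listBool_le w
      have e2 := length_lt_sz (List.replicate (D.n t.1.1) ())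
      have e3 := hq t.1.1
      rw [List.length_replicate] at e2
      have e4 : sz t.1.1 ≤ sz t := by
        obtain ⟨⟨x, us, B⟩, b⟩ := t
        simp only [sz_pair]
        omega
      have e5 := eval_mono q e4
      simp only [Polynomial.eval_add, Polynomial.eval_mul, Polynomial.eval_one,
        Polynomial.eval_ofNat]
      omega
    · simp only [Bool.and_eq_true, decide_eq_true_eq]
      exact ⟨h1, h2, h3, h4⟩
  · rintro ⟨w, -, h⟩
    simp only [Bool.and_eq_true, decide_eq_true_eq] at h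
    exact ⟨w, ⟨h.1, h.2.1, h.2.2.1⟩, h.2.2.2⟩

end Pool.Agent.H251R5.PQ
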