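import Pool.Agent.H251R5.PQ.Stm

/-!
# PAC: the algorithm runs in polynomial time
-/

set_option autoImplicit false

namespace Pool.Agent.H251R5.PQ

open Pool.Agent.NPC

theorem pac_snd (D : Ver) (E : List (List Bool) → List (List Bool)) (k : ℕ) (t : Bool × St) :
    ((nxt2 D E)^[k] t).2 = (nxt D E)^[k] t.2 := by
  induction k generalizing t with
  | zero => rfl
  | succ k ih => rw [Function.iterate_succ_apply, Function.iterate_succ_apply, ih]; rfl

theorem pac_par (D : Ver) (u0 : ℕ) : UPoly (par D u0) := by
  unfold par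
  exact ((UPoly.length Poly.id).add ((UPoly.const 3).mul D.hn)).add (UPoly.const u0)

theorem pac_nxt2 (D : Ver) (E : List (List Bool) → List (List Bool)) (h1 : Poly (test D E))
    (h2 : Poly (block D E)) : Poly (nxt2 D E) := by
  unfold nxt2 nxt
  have h3 : Poly (fun t : Bool × St => test D E t.2) := h1.comp (Poly.snd Poly.id)
  have h4 : Poly (fun t : Bool × St => block D E t.2) := h2.comp (Poly.snd Poly.id)
  fun_prop

theorem t_PAC (hINV : S_INV) (hSZ : S_SZ) (hPTE : S_PTE) (hPBL : S_PBL) (hPR : S_PR) : S_PAC := by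
  intro D E hE
  obtain ⟨u1, hu1⟩ := hINV D E hE
  refine ⟨u1, fun u0 hu0 => ?_⟩
  have hpar := pac_par D u0
  have hnum : UPoly (fun x => par D u0 x ^ 3 + 1) := by
    have := UPoly.eval hpar (Polynomial.X ^ 3 + 1)
    simpa only [Polynomial.eval_add, Polynomial.eval_pow, Polynomial.eval_X,
      Polynomial.eval_one] using this
  have hini : Poly (fun x : List Bool => ((false, ini D u0 x) : Bool × St)) :=
    Poly.pair (NPC.Poly.const false) (Poly.pair Poly.id (Poly.pair hpar (NPC.Poly.const [])))
  have hnx := pac_nxt2 D E (hPTE D E hE) (hPBL D E hE)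
  have hF : Poly (fun p : List Bool × (Bool × St) => nxt2 D E p.2) := hnx.comp (Poly.snd Poly.id)
  obtain ⟨S, hS⟩ := hSZ
  obtain ⟨r, hr⟩ := hpar.sz_le
  have hmain := Poly.iterLen (l := fun x : List Bool => List.replicate (par D u0 x ^ 3 + 1) ())
    (s := fun x : List Bool => ((false, ini D u0 x) : Bool × St)) (F := fun _ => nxt2 D E)
    hnum hini hF (S.comp r + Polynomial.C 4) ?_
  · refine (Poly.fst hmain).congr fun x => ?_
    rw [List.length_replicate]
    rfl
  · intro x k hk
    rw [List.length_replicate] at hk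
    have h1 := hu1 u0 hu0 x k hk
    have h2 : ((nxt2 D E)^[k] (false, ini D u0 x)).2 = (nxt D E)^[k] (ini D u0 x) :=
      pac_snd D E k _
    obtain ⟨g1, g2, g3, -, g5⟩ := h1
    have hpos : 1 ≤ par D u0 x := by
      have := D.pos x
      unfold par
      omega
    obtain ⟨-, -, hpr⟩ := hPR (par D u0 x) hpos
    have h3 : sz ((nxt D E)^[k] (ini D u0 x)) ≤ S.eval (par D u0 x) := by
      apply hS
      · rw [g1]
        unfold par
        omega
      · rw [g2, List.length_replicate]
      · rw [g3]
        exact hk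
      · intro P hP
        obtain ⟨p1, p2⟩ := g5 P hP
        refine ⟨p1, fun q hq => ?_⟩
        have := p2 q hq
        omega
    have h4 : par D u0 x ≤ r.eval (sz x) := by
      have h5 := hr x
      have h6 := length_lt_sz (List.replicate (par D u0 x) ())
      rw [List.length_replicate] at h6
      omega
    have h5 := eval_mono S h4
    have h6 : (nxt2 D E)^[k] (false, ini D u0 x) =
        (((nxt2 D E)^[k] (false, ini D u0 x)).1, (nxt D E)^[k] (ini D u0 x)) := by
      rw [← h2]
    show sz ((nxt2 D E)^[k] (false, ini D u0 x)) ≤ _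
    rw [h6, sz_pair, Polynomial.eval_add, Polynomial.eval_comp, Polynomial.eval_C]
    have h7 := sz_bool_le ((nxt2 D E)^[k] (false, ini D u0 x)).1
    omega

end Pool.Agent.H251R5.PQ
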