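import Pool.Agent.H251R5.PQ.Stm

set_option autoImplicit false

namespace Pool.Agent.H251R5.PQ

open Pool.Agent.NPC

/-- one step of the decoding -/
def padStep (b : Bool) (o : Option (List Bool)) : Option (List Bool) :=
  o.elim (if b then some [] else none) (fun l => some (b :: l))

/-- remove the padding `1 0 0 ... 0` -/
def padDec (w : List Bool) : Option (List Bool) := w.foldr padStep none

theorem pad_length : ∀ (w l : List Bool), padDec w = some l → l.length < w.length := by
  intro w
  induction w with
  | nil => intro l h; simp [padDec] at h
  | cons b w ih =>
    intro l h
    have h0 : padDec (b :: w) = padStep b (padDec w) := rfl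
    rw [h0] at h
    cases hw : padDec w with
    | none =>
      rw [hw] at h
      cases b with
      | true =>
        simp only [padStep, Option.elim_none, if_true, Option.some.injEq] at h
        subst h
        simp
      | false => simp [padStep] at h
    | some l' =>
      rw [hw] at h
      simp only [padStep, Option.elim_some, Option.some.injEq] at h
      subst h
      have := ih l' hw
      simp only [List.length_cons]
      omega

theorem pad_zeros (k : ℕ) : padDec (List.replicate k false) = none := by
  induction k with
  | zero => rfl
  | succ k ih =>
    have h0 : padDec (List.replicate (k + 1) false) = padStep false (padDec (List.replicate k false)) := rfl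
    rw [h0, ih]
    rfl

theorem pad_dec (w : List Bool) (k : ℕ) : padDec (w ++ true :: List.replicate k false) = some w := by
  induction w with
  | nil =>
    have h0 : padDec ([] ++ true :: List.replicate k false) = padStep true (padDec (List.replicate k false)) := rfl
    rw [h0, pad_zeros]
    rfl
  | cons b w ih =>
    have h0 : padDec ((b :: w) ++ true :: List.replicate k false) =
      padStep b (padDec (w ++ true :: List.replicate k false)) := rfl
    rw [h0, ih]
    rfl

theorem pad_poly : Poly padDec := by
  have hstep : Poly (fun p : List Bool × Bool × Option (List Bool) => padStep p.2.1 p.2.2) := by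
    unfold padStep
    fun_prop
  refine Poly.foldr (F := fun _ => padStep) Poly.id (NPC.Poly.const _) hstep
    (Polynomial.C 4 * Polynomial.X + 3) ?_
  intro w k _
  have h3 := length_lt_sz w
  have h4 : (w.drop k).length ≤ w.length := by simp
  cases h : (w.drop k).foldr padStep none with
  | none =>
    simp only [sz_none, Polynomial.eval_add, Polynomial.eval_mul, Polynomial.eval_C,
      Polynomial.eval_X, Polynomial.eval_ofNat]
    omega
  | some l =>
    have h1 := pad_length (w.drop k) l h
    have h2 : ∀ l : List Bool, sz l ≤ 4 * l.length + 1 := by
      intro l
      induction l with
      | nil => simp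
      | cons b l ih =>
        have := sz_bool_le b
        simp only [sz_list_cons, List.length_cons]
        omega
    have h5 := h2 l
    simp only [sz_some, Polynomial.eval_add, Polynomial.eval_mul, Polynomial.eval_C,
      Polynomial.eval_X, Polynomial.eval_ofNat]
    omega

theorem t_PAD : S_PAD := by
  intro L hL
  obtain ⟨V0, q, hV0, hL⟩ := hL
  have pV0 : Poly V0 := Pool.Agent.H622R2.poly_of_polyTime hV0
  have hq : UPoly (fun x : List Bool => q.eval x.length) :=
    UPoly.eval (UPoly.length Poly.id) q
  refine ⟨{ n := fun x => q.eval x.length + 1
            V := fun x w => (padDec w).elim false (fun l => decide (V0 (pairBits x l) = [true]))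
            hn := UPoly.add hq (UPoly.const 1)
            hV := ?_
            pos := fun x => by omega }, fun x => ?_⟩
  · refine Poly.optElim (o := fun t : List Bool × List Bool => padDec t.2) (g := fun _ => false)
      (h := fun t l => decide (V0 (pairBits t.1 l) = [true])) ?_ (NPC.Poly.const _) ?_
    · exact pad_poly.comp (Poly.snd Poly.id)
    · exact Poly.decide_eq (pV0.comp (Pool.Agent.H622R2.poly_pairBits
        (Poly.fst (Poly.fst Poly.id)) (Poly.snd Poly.id))) (NPC.Poly.const _)
  · rw [hL x]
    constructor
    · rintro ⟨w, hw, hV⟩
      refine ⟨w ++ true :: List.replicate (q.eval x.length - w.length) false, ?_, ?_⟩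
      · simp only [List.length_append, List.length_cons, List.length_replicate]
        omega
      · show (padDec (w ++ true :: List.replicate (q.eval x.length - w.length) false)).elim false
          (fun l => decide (V0 (pairBits x l) = [true])) = true
        rw [pad_dec]
        simpa using hV
    · rintro ⟨w, hw, hV⟩
      have hV' : (padDec w).elim false (fun l => decide (V0 (pairBits x l) = [true])) = true := hV
      have hw' : w.length = q.eval x.length + 1 := hw
      cases h : padDec w with
      | none => rw [h] at hV'; simp at hV'
      | some l =>
        rw [h] at hV'
        have h1 := pad_length w l h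
        exact ⟨l, by omega, by simpa using hV'⟩

end Pool.Agent.H251R5.PQ
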