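import Pool.Agent.H251R5.PQ.Stm

set_option autoImplicit false

namespace Pool.Agent.H251R5.PQ

open Pool.Agent.NPC

theorem pev_pr_pos (u : ℕ) : 1 ≤ pr u := by
  unfold pr
  rcases h : (((List.range (2 * u ^ 6 + 1)).filter (fun a => decide (u ^ 6 < a) &&
    (List.range a).all (fun d => decide (d ≤ 1) || decide (a % d ≠ 0)))).head?) with _ | a
  · simp
  · have h1 := List.mem_of_mem_head? h
    rw [List.mem_filter] at h1
    have h2 := h1.2
    rw [Bool.and_eq_true, decide_eq_true_eq] at h2
    simp only [Option.getD_some]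
    omega

theorem pev_ev {α : Type} [TEnc α] (hPRP : S_PRP) {u : α → List Unit} {a : α → ℕ}
    {w : α → List Bool} (hu : Poly u) (ha : Poly a) (hw : Poly w) :
    Poly (fun x => ev (pr (u x).length) (a x) (w x)) := by
  have hp : UPoly (fun x => pr (u x).length) := hPRP (fun x => (u x).length) (UPoly.length hu)
  obtain ⟨q, hq⟩ := hp.sz_le
  have hp' : Poly (fun x => pr (u x).length) := hp.toPoly
  have hval : ∀ (p c : ℕ) (l : List Bool), 1 ≤ p →
      l.foldr (fun b acc => (acc * c + b.toNat) % p) 0 ≤ p := by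
    intro p c l hp
    cases l with
    | nil => simp
    | cons b l =>
      rw [List.foldr_cons]
      exact (Nat.mod_lt _ hp).le
  have hF : Poly (fun p : α × Bool × ℕ => (p.2.2 * a p.1 + p.2.1.toNat) % pr (u p.1).length) := by
    have h1 : Poly (fun p : α × Bool × ℕ => p.2.1.toNat) :=
      (Poly.cond (Poly.fst (Poly.snd Poly.id)) (NPC.Poly.const 1) (NPC.Poly.const 0)).congr fun p => by
        rcases p.2.1 with _ | _ <;> rfl
    have h2 : Poly (fun p : α × Bool × ℕ => a p.1) := ha.comp (Poly.fst Poly.id)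
    have h3 : Poly (fun p : α × Bool × ℕ => pr (u p.1).length) := hp'.comp (Poly.fst Poly.id)
    exact Poly.mod (Poly.add (Poly.mul (Poly.snd (Poly.snd Poly.id)) h2) h1) h3
  refine Poly.foldr (F := fun x b acc => (acc * a x + b.toNat) % pr (u x).length) hw
    (NPC.Poly.const 0) hF (Polynomial.C 4 * q + Polynomial.C 1) ?_
  intro x k _
  have h1 := sz_nat_le (((w x).drop k).foldr
    (fun b acc => (acc * a x + b.toNat) % pr (u x).length) 0)
  have h2 := NPC.Poly.size_le_self (((w x).drop k).foldr
    (fun b acc => (acc * a x + b.toNat) % pr (u x).length) 0)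
  have h3 := hval (pr (u x).length) (a x) ((w x).drop k) (pev_pr_pos _)
  have h4 : sz (List.replicate (pr (u x).length) ()) ≤ Polynomial.eval (sz x) q := hq x
  have h5 := length_lt_sz (List.replicate (pr (u x).length) ())
  rw [List.length_replicate] at h5
  simp only [Polynomial.eval_add, Polynomial.eval_mul, Polynomial.eval_C]
  omega

theorem t_PEV (hPRP : S_PRP) : S_PEV := by
  unfold S_PEV Pass
  have h1 : Poly (fun x : ((List Unit × List Blk × List Bool) × Blk) × (ℕ × ℕ) =>
      ev (pr x.1.1.1.length) x.2.1 x.1.1.2.2) :=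
    pev_ev hPRP (Poly.fst (Poly.fst (Poly.fst Poly.id))) (Poly.fst (Poly.snd Poly.id))
      (Poly.snd (Poly.snd (Poly.fst (Poly.fst Poly.id))))
  have h2 : Poly (fun x : ((List Unit × List Blk × List Bool) × Blk) × (ℕ × ℕ) =>
      decide (ev (pr x.1.1.1.length) x.2.1 x.1.1.2.2 = x.2.2)) :=
    Poly.dec_eq h1 (Poly.snd (Poly.snd Poly.id))
  have h3 : Poly (fun x : (List Unit × List Blk × List Bool) × Blk =>
      x.2.any (fun q => decide (ev (pr x.1.1.length) q.1 x.1.2.2 = q.2))) :=
    Poly.any (l := fun x : (List Unit × List Blk × List Bool) × Blk => x.2)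
      (p := fun x q => decide (ev (pr x.1.1.length) q.1 x.1.2.2 = q.2)) (Poly.snd Poly.id) h2
  exact Poly.all (l := fun t : List Unit × List Blk × List Bool => t.2.1)
    (p := fun t P => P.any (fun q => decide (ev (pr t.1.length) q.1 t.2.2 = q.2)))
    (Poly.fst (Poly.snd Poly.id)) h3

end Pool.Agent.H251R5.PQ
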