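import Pool.Agent.H251R5.PQ.Stm

set_option autoImplicit false

namespace Pool.Agent.H251R5.PQ

open Pool.Agent.NPC

theorem pql_bits {α : Type} [TEnc α] : Poly (fun a : α => bits a) := by
  have h1 : PC (bits : α → List Bool) (fun x : List Bool => x) (fun a : α => bits a) :=
    PC.id (ea := (bits : α → List Bool))
  exact PC.comp (g := fun x => x) (f := fun a : α => bits a) PC.rawIn h1

theorem t_PQL (hPRP : S_PRP) : S_PQL := by
  intro D
  have hsu : UPoly (fun s : St => su s) :=
    UPoly.length (l := fun s : St => s.2.1) (Poly.fst (Poly.snd Poly.id))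
  have hsp : UPoly (fun s : St => sp s) := hPRP (fun s : St => su s) hsu
  have hn : UPoly (fun s : St => D.n s.1) := UPoly.comp D.hn (Poly.fst Poly.id)
  have hN : UPoly (fun s : St => sp s * sp s * (D.n s.1 + 1)) :=
    UPoly.mul (UPoly.mul hsp hsp) (UPoly.add hn (UPoly.const 1))
  have hsp' : Poly (fun s : St => sp s) := hsp.toPoly
  have hn' : Poly (fun s : St => D.n s.1) := hn.toPoly
  have hspc : Poly (fun p : St × ℕ => sp p.1) := hsp'.comp (Poly.fst Poly.id)
  have hnc : Poly (fun p : St × ℕ => D.n p.1.1) := hn'.comp (Poly.fst Poly.id)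
  have hinner : Poly (fun p : St × ℕ =>
      bits ((addp p.1 (p.2 / (D.n p.1.1 + 1) / sp p.1, p.2 / (D.n p.1.1 + 1) % sp p.1),
        p.2 % (D.n p.1.1 + 1)) : St × ℕ)) := by
    refine pql_bits.comp ?_
    unfold addp
    fun_prop
  unfold qlist
  exact NPC.Poly.map (l := fun s : St => List.range (sp s * sp s * (D.n s.1 + 1))) (F := fun s i =>
      bits ((addp s (i / (D.n s.1 + 1) / sp s, i / (D.n s.1 + 1) % sp s),
        i % (D.n s.1 + 1)) : St × ℕ)) hN.range hinner

end Pool.Agent.H251R5.PQ
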