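import Pool.Agent.H251R5.PQ.Stm

set_option autoImplicit false

namespace Pool.Agent.H251R5.PQ

open Pool.Agent.NPC

theorem pr_test {a : ℕ} (ha : 2 ≤ a) :
    ((List.range a).all (fun d => decide (d ≤ 1) || decide (a % d ≠ 0))) = true ↔ a.Prime := by
  rw [List.all_eq_true]
  constructor
  · intro h
    rw [Nat.prime_def_minFac]
    refine ⟨ha, ?_⟩
    by_contra hne
    have h1 : a.minFac ≤ a := Nat.minFac_le (by omega)
    have h2 : a.minFac < a := lt_of_le_of_ne h1 hne
    have h3 := h a.minFac (List.mem_range.2 h2)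
    have h4 : 2 ≤ a.minFac := (Nat.minFac_prime (by omega)).two_le
    have h5 : a % a.minFac = 0 := Nat.mod_eq_zero_of_dvd (Nat.minFac_dvd a)
    rw [Bool.or_eq_true, decide_eq_true_eq, decide_eq_true_eq] at h3
    rcases h3 with h3 | h3
    · omega
    · exact h3 h5
  · intro h d hd
    rw [List.mem_range] at hd
    rw [Bool.or_eq_true, decide_eq_true_eq, decide_eq_true_eq]
    by_cases h1 : d ≤ 1
    · exact Or.inl h1
    · refine Or.inr fun h2 => ?_
      have h3 : d ∣ a := Nat.dvd_of_mod_eq_zero h2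
      rcases (Nat.dvd_prime h).1 h3 with h4 | h4 <;> omega

theorem t_PR : S_PR := by
  intro u hu
  have h1 : u ^ 6 ≠ 0 := by positivity
  obtain ⟨q, hq, hq1, hq2⟩ := Nat.exists_prime_lt_and_le_two_mul (u ^ 6) h1
  set l := (List.range (2 * u ^ 6 + 1)).filter (fun a => decide (u ^ 6 < a) &&
    (List.range a).all (fun d => decide (d ≤ 1) || decide (a % d ≠ 0))) with hl
  have hmem : ∀ a, a ∈ l ↔ a.Prime ∧ u ^ 6 < a ∧ a ≤ 2 * u ^ 6 := by
    intro a
    rw [hl, List.mem_filter, List.mem_range, Bool.and_eq_true, decide_eq_true_eq]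
    constructor
    · rintro ⟨h2, h3, h4⟩
      exact ⟨(pr_test (by omega)).1 h4, h3, by omega⟩
    · rintro ⟨h2, h3, h4⟩
      exact ⟨by omega, h3, (pr_test (by omega)).2 h2⟩
  have hqm : q ∈ l := (hmem q).2 ⟨hq, hq1, hq2⟩
  have hpr : pr u ∈ l := by
    unfold pr
    rw [← hl]
    cases hl' : l with
    | nil => rw [hl'] at hqm; exact absurd hqm (by simp)
    | cons b t => simp
  exact (hmem _).1 hpr

end Pool.Agent.H251R5.PQ
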