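import Pool.Agent.H251R5.PQ.Stm

set_option autoImplicit false

namespace Pool.Agent.H251R5.PQ

open Pool.Agent.NPC

theorem prp_all (a B : ℕ) (h : a ≤ B) (P : ℕ → Bool) :
    (List.range a).all P = (List.range B).all (fun d => decide (a ≤ d) || P d) := by
  rw [Bool.eq_iff_iff, List.all_eq_true, List.all_eq_true]
  constructor
  · intro h1 d _
    by_cases hd : a ≤ d
    · simp [hd]
    · rw [h1 d (List.mem_range.2 (by omega))]
      simp
  · intro h1 d hd
    rw [List.mem_range] at hd
    have := h1 d (List.mem_range.2 (by omega))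
    have h2 : ¬ a ≤ d := by omega
    simpa [h2] using this

theorem prp_le (u : ℕ) : pr u ≤ 2 * u ^ 6 + 2 := by
  unfold pr
  cases h : ((List.range (2 * u ^ 6 + 1)).filter (fun a => decide (u ^ 6 < a) &&
    (List.range a).all (fun d => decide (d ≤ 1) || decide (a % d ≠ 0)))).head? with
  | none => simp
  | some a =>
    have h1 := List.mem_of_mem_head? (by rw [h]; exact rfl : a ∈ _)
    have h2 := List.mem_range.1 (List.mem_filter.1 h1).1
    simp only [Option.getD_some]
    omega

theorem t_PRP : S_PRP := by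
  intro α _ n hn
  have h6 : UPoly (fun a => (n a) ^ 6) := by
    have := UPoly.eval hn (Polynomial.X ^ 6)
    simpa using this
  have hB : UPoly (fun a => 2 * (n a) ^ 6 + 1) :=
    UPoly.add (UPoly.mul (UPoly.const 2) h6) (UPoly.const 1)
  have hB2 : UPoly (fun a => 2 * (n a) ^ 6 + 2) :=
    UPoly.add (UPoly.mul (UPoly.const 2) h6) (UPoly.const 2)
  have p6 : Poly (fun a => (n a) ^ 6) := h6.toPoly
  have pR : Poly (fun a => List.range (2 * (n a) ^ 6 + 1)) := hB.range
  refine UPoly.of_le ?_ hB2 (fun a => prp_le (n a))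
  obtain ⟨N, hN⟩ : ∃ N : α → ℕ, N = fun a => (n a) ^ 6 := ⟨_, rfl⟩
  obtain ⟨R, hR⟩ : ∃ R : α → List ℕ, R = fun a => List.range (2 * (n a) ^ 6 + 1) := ⟨_, rfl⟩
  rw [← hN] at p6
  rw [← hR] at pR
  have key : Poly (fun x => (((R x).filter (fun a => decide (N x < a) &&
      (R x).all (fun d => decide (a ≤ d) || (decide (d ≤ 1) || decide (a % d ≠ 0))))).head?).getD 2) := by
    fun_prop
  refine key.congr fun x => ?_
  unfold pr
  rw [hN, hR]
  congr 2
  apply List.filter_congr
  intro a ha
  rw [List.mem_range] at ha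
  rw [prp_all a (2 * (n x) ^ 6 + 1) ha.le]

end Pool.Agent.H251R5.PQ
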