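import Pool.Agent.H251R5.PQ.Stm

/-! TASK PTE of project PQ (helper251); proof by helper439. -/

set_option autoImplicit false

namespace Pool.Agent.H251R5.PQ

open Pool.Agent.NPC

theorem pte_su : UPoly su := by
  have h : UPoly (fun s : St => s.2.1.length) := UPoly.length (by fun_prop)
  exact h

theorem pte_sp (hPRP : S_PRP) : UPoly sp := hPRP su pte_su

theorem pte_dec (D : Ver) (hPRP : S_PRP) : Poly (fun t : ((St × List Bool) × ℕ) × ℕ =>
    dec (D.n t.1.1.1.1) (sp t.1.1.1) t.1.1.2 t.1.2 t.2) := by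
  unfold dec
  have hn : UPoly (fun t : ((St × List Bool) × ℕ) × ℕ => D.n t.1.1.1.1) :=
    D.hn.comp (f := fun t : ((St × List Bool) × ℕ) × ℕ => t.1.1.1.1) (by fun_prop)
  refine Pool.Agent.NPC.Poly.map hn.range ?_
  unfold val
  have hn2 : Poly (fun p : (((St × List Bool) × ℕ) × ℕ) × ℕ => D.n p.1.1.1.1.1) :=
    (D.hn.comp (f := fun p : (((St × List Bool) × ℕ) × ℕ) × ℕ => p.1.1.1.1.1)
      (by fun_prop)).toPoly
  have hs2 : Poly (fun p : (((St × List Bool) × ℕ) × ℕ) × ℕ => sp p.1.1.1.1) :=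
    ((pte_sp hPRP).comp (f := fun p : (((St × List Bool) × ℕ) × ℕ) × ℕ => p.1.1.1.1)
      (by fun_prop)).toPoly
  fun_prop

theorem t_PTE (hPRP : S_PRP) (hPQL : S_PQL) : S_PTE := by
  intro D E hE
  unfold test
  have hq : Poly (fun s : St => E (qlist D s)) := hE.comp (hPQL D)
  refine Poly.any hq ?_
  have h1 : Poly (fun t : St × List Bool => List.range (sp t.1)) :=
    ((pte_sp hPRP).comp (f := fun t : St × List Bool => t.1) (by fun_prop)).range
  refine Poly.any h1 ?_
  have h2 : Poly (fun t : (St × List Bool) × ℕ => List.range (sp t.1.1)) :=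
    ((pte_sp hPRP).comp (f := fun t : (St × List Bool) × ℕ => t.1.1) (by fun_prop)).range
  refine Poly.any h2 ?_
  exact D.hV.comp (Poly.pair (f := fun t : ((St × List Bool) × ℕ) × ℕ => t.1.1.1.1)
    (by fun_prop) (pte_dec D hPRP))

end Pool.Agent.H251R5.PQ
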