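import Pool.Agent.H251R5.PQ.Stm

set_option autoImplicit false

namespace Pool.Agent.H251R5.PQ

open Pool.Agent.NPC

theorem spa_count (p : ℕ) (hp : 0 < p) (f : ℕ × ℕ → Bool) (m : ℕ) :
    (((List.range (m * p)).map (fun i => (i / p, i % p))).filter f).length =
      ∑ a ∈ Finset.range m, ((List.range p).filter (fun y => f (a, y))).length := by
  induction m with
  | zero => simp
  | succ m ih =>
    rw [Finset.sum_range_succ, ← ih, Nat.succ_mul, List.range_add, List.map_append,
      List.filter_append, List.length_append]
    congr 1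
    have h1 : List.map (fun i => (i / p, i % p)) (List.map (fun x => m * p + x) (List.range p)) =
        (List.range p).map (fun y => (m, y)) := by
      rw [List.map_map]
      refine List.map_congr_left fun y hy => ?_
      have hy' : y < p := List.mem_range.1 hy
      show ((m * p + y) / p, (m * p + y) % p) = (m, y)
      rw [mul_comm m p, Nat.mul_add_mod, Nat.mod_eq_of_lt hy', Nat.mul_add_div hp,
        Nat.div_eq_of_lt hy', add_zero]
    rw [h1, List.filter_map, List.length_map]
    rfl

theorem spa_ev_lt (p a : ℕ) (hp : 0 < p) (w : List Bool) : ev p a w < p := by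
  unfold ev
  cases w with
  | nil => exact hp
  | cons b w => exact Nat.mod_lt _ hp

theorem t_SPA (hJB : S_JB) (hTRU : S_TRU) : S_SPA := by
  classical
  intro D s hprime h8 hlen hsparse X hX
  have hn : 1 ≤ D.n s.1 := D.pos s.1
  have hp : 0 < sp s := hprime.pos
  set n := D.n s.1 with hndef
  set p := sp s with hpdef
  set l := p / (16 * n) with hldef
  set h := tru D s with hhdef
  -- unused positions
  let U : ℕ → Bool := fun a => s.2.2.all (fun P => P.all (fun r => decide (r.1 ≠ a)))
  let c : ℕ → ℕ := fun a => ((List.range p).filter (fun y => hit n p h (a, y))).length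
  have hpts : pts s = ((List.range (p * p)).map (fun i => (i / p, i % p))).filter
      (fun q => U q.1) := rfl
  have hA : (pts s).length = ((Finset.range p).filter (fun a => U a = true)).card * p := by
    rw [hpts, spa_count p hp]
    rw [Finset.card_eq_sum_ones, Finset.sum_mul, Finset.sum_filter]
    refine Finset.sum_congr rfl fun a _ => ?_
    by_cases hU : U a = true
    · simp [hU]
    · simp [hU]
  have hHits : ((pts s).filter (hit n p h)).length =
      ∑ a ∈ (Finset.range p).filter (fun a => U a = true), c a := by
    rw [hpts, List.filter_filter, spa_count p hp, Finset.sum_filter]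
    refine Finset.sum_congr rfl fun a _ => ?_
    by_cases hU : U a = true
    · simp [hU, c]
    · simp [hU]
  let Lt : Finset ℕ := (Finset.range p).filter (fun a => U a = true ∧ c a ≤ l)
  let Hv : Finset ℕ := (Finset.range p).filter (fun a => U a = true ∧ ¬ c a ≤ l)
  have hsplit : ((Finset.range p).filter (fun a => U a = true)).card = Lt.card + Hv.card := by
    rw [← Finset.card_filter_add_card_filter_not (s := (Finset.range p).filter
      (fun a => U a = true)) (p := fun a => c a ≤ l), Finset.filter_filter, Finset.filter_filter]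
  have hhv : Hv.card * (l + 1) ≤ ((pts s).filter (hit n p h)).length := by
    rw [hHits]
    calc Hv.card * (l + 1) = ∑ a ∈ Hv, (l + 1) := by rw [Finset.sum_const, smul_eq_mul]
      _ ≤ ∑ a ∈ Hv, c a := Finset.sum_le_sum fun a ha => by
          have := (Finset.mem_filter.1 ha).2.2
          omega
      _ ≤ ∑ a ∈ (Finset.range p).filter (fun a => U a = true), c a :=
          Finset.sum_le_sum_of_subset fun a ha => by
            rw [Finset.mem_filter] at ha ⊢
            exact ⟨ha.1, ha.2.1⟩
  have hl1 : p < 16 * n * (l + 1) := Nat.lt_mul_div_succ p (by omega)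
  have hl2 : 16 * n * l ≤ p := Nat.mul_div_le p (16 * n)
  -- twice the heavy positions is less than all
  have hhv2 : 2 * Hv.card < Lt.card + Hv.card := by
    have h1 : 32 * n * (Hv.card * (l + 1)) < (Lt.card + Hv.card) * p := by
      calc 32 * n * (Hv.card * (l + 1)) ≤ 32 * n * ((pts s).filter (hit n p h)).length :=
            Nat.mul_le_mul_left _ hhv
        _ < (pts s).length := hsparse
        _ = (Lt.card + Hv.card) * p := by rw [hA, hsplit]
    have h2 : (2 * Hv.card) * p ≤ 32 * n * (Hv.card * (l + 1)) := by
      calc (2 * Hv.card) * p ≤ (2 * Hv.card) * (16 * n * (l + 1)) :=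
            Nat.mul_le_mul_left _ hl1.le
        _ = 32 * n * (Hv.card * (l + 1)) := by ring
    exact lt_of_mul_lt_mul_right (h2.trans_lt h1) (Nat.zero_le p)
  -- number of unused positions
  have hused : ((Finset.range p).filter (fun a => ¬ U a = true)).card ≤
      (s.2.2.map List.length).sum := by
    have h1 : (Finset.range p).filter (fun a => ¬ U a = true) ⊆
        (s.2.2.flatten.map Prod.fst).toFinset := by
      intro a ha
      have h2 := (Finset.mem_filter.1 ha).2
      rw [List.mem_toFinset, List.mem_map]
      simp only [U, List.all_eq_true, decide_eq_true_eq, not_forall] at h2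
      obtain ⟨P, hP, r, hr, hra⟩ := h2
      exact ⟨r, List.mem_flatten.2 ⟨P, hP, hr⟩, not_not.1 hra⟩
    calc ((Finset.range p).filter (fun a => ¬ U a = true)).card
        ≤ (s.2.2.flatten.map Prod.fst).toFinset.card := Finset.card_le_card h1
      _ ≤ (s.2.2.flatten.map Prod.fst).length := List.toFinset_card_le _
      _ = (s.2.2.map List.length).sum := by rw [List.length_map, List.length_flatten]
  have hAp : p ≤ 2 * (Lt.card + Hv.card) := by
    have h1 := Finset.card_filter_add_card_filter_not (s := Finset.range p)
      (p := fun a => U a = true)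
    rw [Finset.card_range, hsplit] at h1
    omega
  have hLt : p < 4 * Lt.card := by omega
  -- the blocks
  let B' : List Blk := Lt.toList.map (fun a =>
    ((List.range p).filter (fun y => hit n p h (a, y))).map (fun y => (a, y)))
  refine hJB p n l B' X hprime hn ?_ ?_ ?_ ?_ ?_
  · intro P hP
    obtain ⟨a, ha, rfl⟩ := List.mem_map.1 hP
    rw [List.length_map]
    exact (Finset.mem_filter.1 (Finset.mem_toList.1 ha)).2.2
  · show (Lt.toList.map _).Pairwise _
    rw [List.pairwise_map]
    refine (Finset.nodup_toList Lt).imp ?_
    intro a b hab q hq q' hq'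
    obtain ⟨y, -, rfl⟩ := List.mem_map.1 hq
    obtain ⟨y', -, rfl⟩ := List.mem_map.1 hq'
    exact hab
  · intro P hP q hq
    obtain ⟨a, ha, rfl⟩ := List.mem_map.1 hP
    obtain ⟨y, -, rfl⟩ := List.mem_map.1 hq
    exact Finset.mem_range.1 (Finset.mem_filter.1 (Finset.mem_toList.1 ha)).1
  · show (2 * l + 1) * n ≤ (Lt.toList.map _).length
    rw [List.length_map, Finset.length_toList]
    have h1 : 16 * ((2 * l + 1) * n) = 2 * (16 * n * l) + 16 * n := by ring
    omega
  · intro w hw
    have hIs := hX w hw
    refine ⟨hIs.1, ?_⟩
    unfold Pass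
    rw [List.all_eq_true]
    intro P hP
    obtain ⟨a, ha, rfl⟩ := List.mem_map.1 hP
    have hap : a < p := Finset.mem_range.1 (Finset.mem_filter.1 (Finset.mem_toList.1 ha)).1
    rw [List.any_eq_true]
    refine ⟨(a, ev p a w), List.mem_map.2 ⟨ev p a w, List.mem_filter.2
      ⟨List.mem_range.2 (spa_ev_lt p a hp w), ?_⟩, rfl⟩, by simp⟩
    show val n p h a (ev p a w) n = true
    rw [hTRU D s a (ev p a w) n hap (spa_ev_lt p a hp w) le_rfl]
    refine ⟨w, hIs, rfl, ?_⟩
    rw [List.getD_eq_default]
    exact hIs.1.le

end Pool.Agent.H251R5.PQ
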