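import Pool.Agent.H251R5.PQ.Stm

set_option autoImplicit false

namespace Pool.Agent.H251R5.PQ

open Pool.Agent.NPC

theorem sz_t_nat_le (n m : ℕ) (h : n ≤ m) : sz n ≤ 4 * m + 1 := by
  have h1 := sz_nat_le n
  have h2 : n.size ≤ n := by
    rw [Nat.size_le]
    exact Nat.lt_two_pow_self
  omega

theorem sz_t_blk_le (u : ℕ) (P : Blk) (hl : P.length ≤ u ^ 2)
    (h : ∀ q ∈ P, q.1 ≤ 2 * u ^ 6 ∧ q.2 ≤ 2 * u ^ 6) :
    sz P ≤ u ^ 2 * (16 * u ^ 6 + 4) + 1 := by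
  have h1 := sz_le_length_mul P (16 * u ^ 6 + 3) (fun q hq => by
    have h2 := sz_t_nat_le q.1 _ (h q hq).1
    have h3 := sz_t_nat_le q.2 _ (h q hq).2
    have h4 : sz q = sz q.1 + sz q.2 + 1 := sz_pair q.1 q.2
    omega)
  exact h1.trans (Nat.add_le_add_right (Nat.mul_le_mul_right (16 * u ^ 6 + 4) hl) 1)

theorem t_SZ : S_SZ := by
  refine ⟨4 * Polynomial.X + 1 + (2 * Polynomial.X + 1 +
    ((Polynomial.X ^ 3 + 1) * (Polynomial.X ^ 2 * (16 * Polynomial.X ^ 6 + 4) + 2) + 1) + 1) + 1,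
    fun s u h1 h2 h3 h4 => ?_⟩
  have e1 : sz s = sz s.1 + sz s.2 + 1 := sz_pair s.1 s.2
  have e2 : sz s.2 = sz s.2.1 + sz s.2.2 + 1 := sz_pair s.2.1 s.2.2
  have g1 := sz_listBool_le s.1
  have g2 := sz_le_length_mul s.2.1 1 (fun _ _ => le_rfl)
  have g3 := sz_le_length_mul s.2.2 (u ^ 2 * (16 * u ^ 6 + 4) + 1) (fun P hP =>
    sz_t_blk_le u P (h4 P hP).1 (h4 P hP).2)
  have g4 := Nat.mul_le_mul_right (u ^ 2 * (16 * u ^ 6 + 4) + 2) h3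
  simp only [Polynomial.eval_add, Polynomial.eval_mul, Polynomial.eval_pow, Polynomial.eval_X,
    Polynomial.eval_one, Polynomial.eval_ofNat]
  rw [e1, e2]
  have g5 : s.2.2.length * (u ^ 2 * (16 * u ^ 6 + 4) + 1 + 1) + 1 ≤
      (u ^ 3 + 1) * (u ^ 2 * (16 * u ^ 6 + 4) + 2) + 1 := Nat.add_le_add_right g4 1
  have g6 := g3.trans g5
  omega

end Pool.Agent.H251R5.PQ
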