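import Pool.Agent.H251R5.PQ.Stm

/-! TASK TRU of project PQ (helper251); proof by helper439. -/

set_option autoImplicit false

namespace Pool.Agent.H251R5.PQ

open Pool.Agent.NPC

theorem tru_index (p n a y b : ℕ) (ha : a < p) (hy : y < p) (hb : b ≤ n) :
    (a * p + y) * (n + 1) + b < p * p * (n + 1) := by
  have h1 : a * p + y < p * p := by
    calc a * p + y < a * p + p := by omega
      _ = (a + 1) * p := by ring
      _ ≤ p * p := Nat.mul_le_mul_right p ha
  calc (a * p + y) * (n + 1) + b < (a * p + y) * (n + 1) + (n + 1) := by omega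
    _ = (a * p + y + 1) * (n + 1) := by ring
    _ ≤ p * p * (n + 1) := Nat.mul_le_mul_right _ h1

theorem t_TRU : S_TRU := by
  classical
  intro D s a y b ha hy hb
  have hlt := tru_index (sp s) (D.n s.1) a y b ha hy hb
  have hdiv : ((a * sp s + y) * (D.n s.1 + 1) + b) / (D.n s.1 + 1) = a * sp s + y := by
    rw [Nat.add_comm, Nat.add_mul_div_right _ _ (Nat.succ_pos _), Nat.div_eq_of_lt (by omega),
      Nat.zero_add]
  have hmod : ((a * sp s + y) * (D.n s.1 + 1) + b) % (D.n s.1 + 1) = b := by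
    rw [Nat.add_comm, Nat.add_mul_mod_self_right, Nat.mod_eq_of_lt (by omega)]
  have hp : 0 < sp s := by omega
  have hdiv2 : (a * sp s + y) / sp s = a := by
    rw [Nat.add_comm, Nat.add_mul_div_right _ _ hp, Nat.div_eq_of_lt hy, Nat.zero_add]
  have hmod2 : (a * sp s + y) % sp s = y := by
    rw [Nat.add_comm, Nat.add_mul_mod_self_right, Nat.mod_eq_of_lt hy]
  have hval : val (D.n s.1) (sp s) (tru D s) a y b = true ↔
      Qry D (addp s (a, y), b) := by
    unfold val tru answers qlist
    rw [List.map_map, List.getD_eq_getElem?_getD, List.getElem?_map,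
      List.getElem?_range hlt]
    simp only [Option.map_some, Option.getD_some, Function.comp_apply, decide_eq_true_eq]
    rw [bits_mem_lang, hdiv, hmod, hdiv2, hmod2]
  rw [hval]
  unfold Qry
  refine exists_congr fun w => ?_
  have hIs : IsW D (addp s (a, y)) w ↔ IsW D s w ∧ ev (sp s) a w = y := by
    unfold IsW
    have h1 : Pass (sp (addp s (a, y))) (addp s (a, y)).2.2 w = true ↔
        Pass (sp s) s.2.2 w = true ∧ ev (sp s) a w = y := by
      change Pass (sp s) (s.2.2 ++ [[(a, y)]]) w = true ↔ _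
      unfold Pass
      rw [List.all_append, Bool.and_eq_true]
      simp
    rw [h1]
    exact ⟨fun h => ⟨⟨h.1, h.2.1, h.2.2.1⟩, h.2.2.2⟩, fun h => ⟨h.1.1, h.1.2.1, h.1.2.2, h.2⟩⟩
  change IsW D (addp s (a, y)) w ∧ w.getD b true = true ↔ _
  rw [hIs]
  exact ⟨fun h => ⟨h.1.1, h.1.2, h.2⟩, fun h => ⟨⟨h.1, h.2.1⟩, h.2.2⟩⟩

end Pool.Agent.H251R5.PQ
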