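import Pool.Agent.H251R5.PQ.T_COR
import Pool.Agent.H251R5.PQ.T_ENU
import Pool.Agent.H251R5.PQ.T_EV
import Pool.Agent.H251R5.PQ.T_FIL
import Pool.Agent.H251R5.PQ.T_FIND
import Pool.Agent.H251R5.PQ.T_GR
import Pool.Agent.H251R5.PQ.T_INV
import Pool.Agent.H251R5.PQ.T_JB
import Pool.Agent.H251R5.PQ.T_LEV
import Pool.Agent.H251R5.PQ.T_LG
import Pool.Agent.H251R5.PQ.T_NPQ
import Pool.Agent.H251R5.PQ.T_PAC
import Pool.Agent.H251R5.PQ.T_PAD
import Pool.Agent.H251R5.PQ.T_PBL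
import Pool.Agent.H251R5.PQ.T_PEV
import Pool.Agent.H251R5.PQ.T_PQL
import Pool.Agent.H251R5.PQ.T_PR
import Pool.Agent.H251R5.PQ.T_PRP
import Pool.Agent.H251R5.PQ.T_PTE
import Pool.Agent.H251R5.PQ.T_SPA
import Pool.Agent.H251R5.PQ.T_SZ
import Pool.Agent.H251R5.PQ.T_TRU

/-!
# Enumerators for `NP` give `P = NP`
-/

set_option autoImplicit false

namespace Pool.Agent.H251R5.PQ

open Pool.Agent.NPC

theorem c_PRP : S_PRP := fun n => t_PRP n
theorem c_PQL : S_PQL := t_PQL c_PRP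
theorem c_JB : S_JB := t_JB t_EV
theorem c_FIND : S_FIND := t_FIND t_EV t_TRU
theorem c_SPA : S_SPA := t_SPA c_JB t_TRU
theorem c_LEV : S_LEV := t_LEV t_TRU c_FIND c_SPA t_GR
theorem c_INV : S_INV := t_INV t_GR t_LG t_SZ t_PR c_PQL
theorem c_FIL : S_FIL := t_FIL c_JB t_PR
theorem c_COR : S_COR := t_COR c_INV c_FIL c_LEV c_FIND t_PR
theorem c_PAC : S_PAC := t_PAC c_INV t_SZ (t_PTE c_PRP c_PQL) (t_PBL c_PRP c_PQL) t_PR
theorem c_NPQ : S_NPQ := t_NPQ (t_PEV c_PRP)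

/-- If the answers of every `NP` language to parallel queries can be enumerated in polynomial time
(a list of candidate vectors containing the true one is computed), then `P = NP`. -/
theorem collapse_of_enum (h : ∀ L : Set (List Bool), InNP L → ∃ E, EnumFor L E) :
    ∀ L : Set (List Bool), InNP L → InP L := by
  intro L hL
  obtain ⟨D, hD⟩ := t_PAD L hL
  obtain ⟨E, hE⟩ := h _ (c_NPQ D)
  obtain ⟨u1, h1⟩ := c_COR D E hE
  obtain ⟨u2, h2⟩ := c_PAC D E hE.1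
  refine ⟨fun x => [acc D E (max u1 u2) x], polyTime_of_poly (h2 _ (le_max_right _ _)),
    fun x => ?_⟩
  rw [hD x, ← h1 (max u1 u2) (le_max_left _ _) x]
  simp

/-- `FP_||^NP = FP^NP[log]` implies `P = NP`. -/
theorem main : S_MAIN := fun h => collapse_of_enum (t_ENU h)

end Pool.Agent.H251R5.PQ
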