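import Pool.Agent.H251R5.PQ.Cls

/-!
# Selective sets and computations with few rounds of parallel queries
-/

set_option autoImplicit false

namespace Pool.Agent.H251R5.PQ

open Pool.Agent.NPC

/-- `A` is p-selective: a polynomial-time selector chooses from any two strings one of them, which
is in `A` if one of the two is in `A`. -/
def PSelective (A : Set (List Bool)) : Prop :=
  ∃ f : List Bool → List Bool, PolyTime f ∧ ∀ x y : List Bool,
    (f (pairBits x y) = x ∨ f (pairBits x y) = y) ∧ (x ∈ A ∨ y ∈ A → f (pairBits x y) ∈ A)

/-- Functions computable in polynomial time with oracle `A` in at most `r` rounds of parallel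
queries. -/
def Rounds (A : Set (List Bool)) : ℕ → (List Bool → List Bool) → Prop
  | 0, F => PolyTime F
  | r + 1, F => ∃ (F' : List Bool → List Bool) (Q : List Bool → List (List Bool))
      (g : List Bool → List Bool), Rounds A r F' ∧ PolyTime (fun x => bits (Q x)) ∧ PolyTime g ∧
        ∀ x, F x = g (pairBits (F' x) (answers A (Q (F' x))))

end Pool.Agent.H251R5.PQ
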