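import Pool.Agent.H251R5.PQ.Defs
import Pool.Agent.H251R5.PQ.SelDefs

/-!
# Selective sets are enumerable, also through boundedly many rounds of parallel queries
-/

set_option autoImplicit false

namespace Pool.Agent.H251R5.PQ

open Pool.Agent.NPC

/-- number of strings of `Y` preferred to `y` -/
def outd (f : List Bool → List Bool) (Y : List (List Bool)) (y : List Bool) : ℕ :=
  (Y.filter (fun z => decide (z ≠ y) &&
    (decide (f (pairBits y z) = z) || decide (f (pairBits z y) = z)))).length

theorem outd_spec {A : Set (List Bool)} {f : List Bool → List Bool}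
    (hf : ∀ x y : List Bool, (f (pairBits x y) = x ∨ f (pairBits x y) = y) ∧
      (x ∈ A ∨ y ∈ A → f (pairBits x y) ∈ A)) (Y : List (List Bool)) :
    ∃ c ≤ Y.length, ∀ y ∈ Y, (y ∈ A ↔ outd f Y y < c) := by
  classical
  refine ⟨(Y.filter (fun z => decide (z ∈ A))).length, List.length_filter_le _ _, fun y hy => ?_⟩
  have key : ∀ (P R : List Bool → Bool) (l : List (List Bool)), (∀ z, P z = true → R z = true) →
      (l.filter P).length ≤ (l.filter R).length := by
    intro P R l h
    induction l with
    | nil => simp
    | cons a l ih =>
      by_cases h1 : P a = true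
      · simp [h1, h a h1, ih]
      · by_cases h2 : R a = true
        · simp [h1, h2]; omega
        · simp [h1, h2, ih]
  have key2 : ∀ (P R : List Bool → Bool) (l : List (List Bool)), (∀ z, P z = true → R z = true) →
      (∃ z ∈ l, P z = false ∧ R z = true) → (l.filter P).length < (l.filter R).length := by
    intro P R l h
    induction l with
    | nil => simp
    | cons a l ih =>
      rintro ⟨z, hz, h3, h4⟩
      rcases List.mem_cons.1 hz with rfl | hz
      · have := key P R l h
        simp [h3, h4]; omega
      · have := ih ⟨z, hz, h3, h4⟩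
        by_cases h1 : P a = true
        · simp [h1, h a h1, this]
        · by_cases h2 : R a = true
          · simp [h1, h2]; omega
          · simp [h1, h2, this]
  have key3 : ∀ (P R : List Bool → Bool) (l : List (List Bool)),
      (∀ z ∈ l, P z = true → R z = true) → (l.filter P).length ≤ (l.filter R).length := by
    intro P R l h
    induction l with
    | nil => simp
    | cons a l ih =>
      have ih' := ih (fun z hz => h z (List.mem_cons_of_mem _ hz))
      by_cases h1 : P a = true
      · simp [h1, h a (List.mem_cons_self) h1, ih']
      · by_cases h2 : R a = true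
        · simp [h1, h2]; omega
        · simp [h1, h2, ih']
  constructor
  · intro hyA
    refine key2 _ _ Y ?_ ⟨y, hy, by simp, by simpa using hyA⟩
    intro z hz
    simp only [Bool.and_eq_true, Bool.or_eq_true, decide_eq_true_eq] at hz ⊢
    rcases hz.2 with h | h
    · have := (hf y z).2 (Or.inl hyA)
      rwa [h] at this
    · have := (hf z y).2 (Or.inr hyA)
      rwa [h] at this
  · intro hlt
    by_contra hyA
    refine absurd hlt (not_lt.2 (key3 _ _ Y ?_))
    intro z _ hz
    simp only [decide_eq_true_eq] at hz
    simp only [Bool.and_eq_true, Bool.or_eq_true, decide_eq_true_eq]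
    refine ⟨fun h => hyA (h ▸ hz), Or.inr ?_⟩
    rcases (hf z y).1 with h | h
    · exact h
    · have := (hf z y).2 (Or.inl hz)
      rw [h] at this
      exact absurd this hyA

theorem sel_bits_poly {α : Type} [TEnc α] : Poly (fun a : α => bits a) := by
  have h1 : PC (bits : α → List Bool) (fun x : List Bool => x) (fun a : α => bits a) :=
    PC.id (ea := (bits : α → List Bool))
  exact PC.comp (g := fun x => x) (f := fun a : α => bits a) PC.rawIn h1

theorem sel_poly_of_bits {β : Type} [TEnc β] [TDec β] [Inhabited β] {r : List Bool → β}
    (h : PolyTime (fun x => bits (r x))) : Poly r := by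
  have h1 : Poly (fun x => bits (r x)) := H622R2.poly_of_polyTime h
  have h2 : Poly (fun x => unbits β (bits (r x))) := poly_unbits.comp h1
  exact (NPC.Poly.optGetD h2 (NPC.Poly.const default)).congr fun x => by
    simp only [unbits_bits, Option.getD_some]

theorem sel_outd_poly {f : List Bool → List Bool} (hf : PolyTime f) :
    Poly (fun t : List (List Bool) × List Bool => outd f t.1 t.2) := by
  have h0 : Poly f := H622R2.poly_of_polyTime hf
  have h1 : Poly (fun q : (List (List Bool) × List Bool) × List Bool => f (pairBits q.1.2 q.2)) :=
    h0.comp (H622R2.poly_pairBits (by fun_prop) (by fun_prop))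
  have h2 : Poly (fun q : (List (List Bool) × List Bool) × List Bool => f (pairBits q.2 q.1.2)) :=
    h0.comp (H622R2.poly_pairBits (by fun_prop) (by fun_prop))
  unfold outd
  refine NPC.Poly.length (NPC.Poly.filter (l := fun t : List (List Bool) × List Bool => t.1)
    (p := fun t z => decide (z ≠ t.2) &&
      (decide (f (pairBits t.2 z) = z) || decide (f (pairBits z t.2) = z))) (by fun_prop) ?_)
  refine NPC.Poly.and (by fun_prop) (NPC.Poly.or ?_ ?_)
  · exact NPC.Poly.decide_eq h1 (by fun_prop)
  · exact NPC.Poly.decide_eq h2 (by fun_prop)

/-- The answers reconstructed from the number `c`. -/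
def recon (f : List Bool → List Bool) (Q : List Bool → List (List Bool))
    (g : List Bool → List Bool) (Y : List (List Bool)) (c : ℕ) (s : List Bool) : List Bool :=
  g (pairBits s ((Q s).map (fun y => decide (outd f Y y < c))))

theorem recon_poly {f g : List Bool → List Bool} {Q : List Bool → List (List Bool)}
    (hf : PolyTime f) (hg : PolyTime g) (hQ : Poly Q) :
    Poly (fun t : (List (List Bool) × ℕ) × List Bool => recon f Q g t.1.1 t.1.2 t.2) := by
  have pg : Poly g := H622R2.poly_of_polyTime hg
  have po := sel_outd_poly hf
  unfold recon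
  refine pg.comp (H622R2.poly_pairBits (by fun_prop) ?_)
  refine NPC.Poly.map (l := fun t : (List (List Bool) × ℕ) × List Bool => Q t.2)
    (F := fun t y => decide (outd f t.1.1 y < t.1.2)) (by fun_prop) ?_
  refine NPC.Poly.decide_lt ?_ (by fun_prop)
  exact po.comp (f := fun t : ((List (List Bool) × ℕ) × List Bool) × List Bool => (t.1.1.1, t.2))
    (by fun_prop)

/-- The candidates of the next round. -/
def nextE (f : List Bool → List Bool) (Q : List Bool → List (List Bool))
    (g : List Bool → List Bool) (v : List (List Bool)) : List (List (List Bool)) :=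
  (List.range ((v.flatMap Q).length + 1)).map (fun c => v.map (recon f Q g (v.flatMap Q) c))

theorem nextE_poly {f g : List Bool → List Bool} {Q : List Bool → List (List Bool)}
    (hf : PolyTime f) (hg : PolyTime g) (hQ : Poly Q) : Poly (nextE f Q g) := by
  have hr : Poly (fun v : List (List Bool) => List.range ((v.flatMap Q).length + 1)) :=
    UPoly.range (UPoly.add (UPoly.length (by fun_prop)) (UPoly.const 1))
  have h1 := recon_poly hf hg hQ
  unfold nextE
  refine NPC.Poly.map (l := fun v : List (List Bool) => List.range ((v.flatMap Q).length + 1))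
    (F := fun v c => v.map (recon f Q g (v.flatMap Q) c)) hr ?_
  refine NPC.Poly.map (l := fun t : List (List Bool) × ℕ => t.1)
    (F := fun t s => recon f Q g (t.1.flatMap Q) t.2 s) (by fun_prop) ?_
  exact h1.comp (f := fun t : (List (List Bool) × ℕ) × List Bool => ((t.1.1.flatMap Q, t.1.2), t.2))
    (by fun_prop)

theorem nextE_mem {A : Set (List Bool)} {f g : List Bool → List Bool}
    {Q : List Bool → List (List Bool)}
    (hf : ∀ x y : List Bool, (f (pairBits x y) = x ∨ f (pairBits x y) = y) ∧
      (x ∈ A ∨ y ∈ A → f (pairBits x y) ∈ A)) (v : List (List Bool)) :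
    v.map (fun s => g (pairBits s (answers A (Q s)))) ∈ nextE f Q g v := by
  obtain ⟨c, hc, hc'⟩ := outd_spec hf (v.flatMap Q)
  unfold nextE
  rw [List.mem_map]
  refine ⟨c, by rw [List.mem_range]; omega, ?_⟩
  refine List.map_congr_left fun x hx => ?_
  unfold recon
  congr 2
  unfold answers
  refine List.map_congr_left fun y hy => ?_
  have := hc' y (by
    rw [List.mem_flatMap]
    exact ⟨x, hx, hy⟩)
  classical
  by_cases h : y ∈ A
  · rw [decide_eq_true (this.1 h)]
    exact (decide_eq_true h).symm
  · rw [decide_eq_false (fun h' => h (this.2 h'))]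
    exact (decide_eq_false h).symm

/-- Functions computed from a selective set by boundedly many rounds of parallel queries are
enumerable in polynomial time, also on lists of arguments. -/
theorem enum_of_sel {A : Set (List Bool)} (hA : PSelective A) (r : ℕ) :
    ∀ (F : List Bool → List Bool), Rounds A r F →
    ∃ E : List (List Bool) → List (List (List Bool)), Poly E ∧ ∀ qs, qs.map F ∈ E qs := by
  induction r with
  | zero =>
    intro F hF
    have h0 : Poly F := H622R2.poly_of_polyTime hF
    refine ⟨fun qs => [qs.map F], ?_, fun qs => by simp⟩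
    fun_prop
  | succ r ih =>
    rintro F ⟨F', Q, g, hF', hQ, hg, hF⟩
    obtain ⟨f, hf, hsel⟩ := hA
    obtain ⟨E', hE', hE''⟩ := ih F' hF'
    have pQ : Poly Q := sel_poly_of_bits hQ
    have pn := nextE_poly hf hg pQ
    refine ⟨fun qs => (E' qs).flatMap (nextE f Q g), ?_, fun qs => ?_⟩
    · exact NPC.Poly.flatMap (l := E') (F := fun _ v => nextE f Q g v) hE'
        (pn.comp (f := fun t : List (List Bool) × List (List Bool) => t.2) (by fun_prop))
    · rw [List.mem_flatMap]
      refine ⟨_, hE'' qs, ?_⟩
      have h1 := nextE_mem (g := g) (Q := Q) hsel (qs.map F')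
      rw [List.map_map] at h1
      have h2 : qs.map F = qs.map ((fun s => g (pairBits s (answers A (Q s)))) ∘ F') :=
        List.map_congr_left fun x _ => hF x
      rw [h2]
      exact h1

/-- A language reducible to a selective set by boundedly many rounds of parallel queries has an
enumerator. -/
theorem enumFor_of_sel {A L : Set (List Bool)} (hA : PSelective A) {r : ℕ}
    {F : List Bool → List Bool} (hF : Rounds A r F) (hL : ∀ x, x ∈ L ↔ F x = [true]) :
    ∃ E, EnumFor L E := by
  obtain ⟨E, hE, hE'⟩ := enum_of_sel hA r F hF
  refine ⟨fun qs => (E qs).map (fun v => v.map (fun s => decide (s = [true]))), ?_, fun qs => ?_⟩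
  · fun_prop
  · rw [List.mem_map]
    refine ⟨_, hE' qs, ?_⟩
    rw [List.map_map]
    unfold answers
    refine List.map_congr_left fun x _ => ?_
    classical
    by_cases h : x ∈ L
    · rw [Function.comp_apply, decide_eq_true ((hL x).1 h)]
      exact (decide_eq_true h).symm
    · rw [Function.comp_apply, decide_eq_false (fun h' => h ((hL x).2 h'))]
      exact (decide_eq_false h).symm

end Pool.Agent.H251R5.PQ
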