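import Pool.Agent.H251R5.PQ.Defs

/-!
# Parallel queries to `NP`: statements of the tasks
-/

set_option autoImplicit false

namespace Pool.Agent.H251R5.PQ

open Pool.Agent.NPC

/-- the true vector of answers in the state `s` -/
noncomputable def tru (D : Ver) (s : St) : List Bool := answers (lang (Qry D)) (qlist D s)

/-! ### Combinatorics -/

/-- EV: two strings of length `n` agree at fewer than `n` positions modulo a prime. -/
def S_EV : Prop := ∀ (p n : ℕ), p.Prime → 1 ≤ n → ∀ w w' : List Bool, w.length = n →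
  w'.length = n → w ≠ w' → ((Finset.range p).filter (fun a => ev p a w = ev p a w')).card < n

/-- PR: the prime `pr u` (Bertrand). -/
def S_PR : Prop := ∀ u : ℕ, 1 ≤ u → (pr u).Prime ∧ u ^ 6 < pr u ∧ pr u ≤ 2 * u ^ 6

/-- JB: Johnson type bound for the strings passing through many blocks. -/
def S_JB : Prop := ∀ (p n l : ℕ) (B : List Blk) (X : Finset (List Bool)), p.Prime → 1 ≤ n →
  (∀ P ∈ B, P.length ≤ l) →
  B.Pairwise (fun P P' => ∀ q ∈ P, ∀ q' ∈ P', q.1 ≠ q'.1) →
  (∀ P ∈ B, ∀ q ∈ P, q.1 < p) → (2 * l + 1) * n ≤ B.length →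
  (∀ w ∈ X, w.length = n ∧ Pass p B w = true) → X.card ≤ 2 * l

/-- GR: the greedy choice. -/
def S_GR : Prop := ∀ (hf : List Bool → ℕ × ℕ → Bool) (m : ℕ) (Q : List (ℕ × ℕ))
  (R : List (List Bool)), 1 ≤ m → Q ≠ [] →
  (∀ h ∈ R, Q.length ≤ m * (Q.filter (hf h)).length) →
  (∀ q ∈ greedy hf m Q R, q ∈ Q) ∧ (∀ h ∈ R, ∃ q ∈ greedy hf m Q R, hf h q = true) ∧
    (greedy hf m Q R).length ≤ m * (Nat.log 2 R.length + 1)

/-- LG: polynomials have logarithms below the identity. -/
def S_LG : Prop := ∀ G : Polynomial ℕ, ∃ u0 : ℕ, ∀ u ≥ u0, 32 * (Nat.log 2 (G.eval u) + 1) ≤ u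

/-- SZ: the size of a state. -/
def S_SZ : Prop := ∃ S : Polynomial ℕ, ∀ (s : St) (u : ℕ), s.1.length ≤ u → s.2.1.length ≤ u →
  s.2.2.length ≤ u ^ 3 + 1 →
  (∀ P ∈ s.2.2, P.length ≤ u ^ 2 ∧ ∀ q ∈ P, q.1 ≤ 2 * u ^ 6 ∧ q.2 ≤ 2 * u ^ 6) →
  sz s ≤ S.eval u

/-! ### One level -/

/-- TRU: the meaning of the bits of the true vector. -/
def S_TRU : Prop := ∀ (D : Ver) (s : St) (a y b : ℕ), a < sp s → y < sp s → b ≤ D.n s.1 →
  (val (D.n s.1) (sp s) (tru D s) a y b = true ↔
    ∃ w, IsW D s w ∧ ev (sp s) a w = y ∧ w.getD b true = true)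

/-- FIND: if there are few surviving witnesses then the test finds one. -/
def S_FIND : Prop := ∀ (D : Ver) (E : List (List Bool) → List (List Bool)),
  EnumFor (lang (Qry D)) E → ∀ s : St, (sp s).Prime → ∀ X : Finset (List Bool),
  (∀ w, w ∈ X ↔ IsW D s w) → X.Nonempty → X.card * D.n s.1 ≤ sp s → test D E s = true

/-- SPA: if the true vector is not heavy then there are few surviving witnesses. -/
def S_SPA : Prop := ∀ (D : Ver) (s : St), (sp s).Prime → 8 * D.n s.1 ≤ sp s →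
  2 * (s.2.2.map List.length).sum ≤ sp s →
  32 * D.n s.1 * ((pts s).filter (hit (D.n s.1) (sp s) (tru D s))).length < (pts s).length →
  ∀ X : Finset (List Bool), (∀ w ∈ X, IsW D s w) → X.card ≤ 2 * (sp s / (16 * D.n s.1))

/-- LEV: one level of the algorithm. -/
def S_LEV : Prop := ∀ (D : Ver) (E : List (List Bool) → List (List Bool)),
  EnumFor (lang (Qry D)) E → ∀ s : St, (sp s).Prime → 8 * D.n s.1 ≤ sp s →
  2 * (s.2.2.map List.length).sum ≤ sp s → (∃ w, IsW D s w) → test D E s = false →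
  ∃ w, IsW D (nxt D E s) w

/-! ### Polynomial time -/

/-- PRP: the prime can be computed in unary. -/
def S_PRP : Prop := ∀ {α : Type} [TEnc α] (n : α → ℕ), UPoly n → UPoly (fun a => pr (n a))

/-- PEV: the tests on strings are polynomial. -/
def S_PEV : Prop := Poly (fun t : List Unit × List Blk × List Bool =>
  Pass (pr t.1.length) t.2.1 t.2.2)

/-- PQL: the list of queries is polynomial. -/
def S_PQL : Prop := ∀ D : Ver, Poly (qlist D)

/-- PTE: the test is polynomial. -/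
def S_PTE : Prop := ∀ (D : Ver) (E : List (List Bool) → List (List Bool)), Poly E →
  Poly (test D E)

/-- PBL: the block is polynomial. -/
def S_PBL : Prop := ∀ (D : Ver) (E : List (List Bool) → List (List Bool)), Poly E →
  Poly (block D E)

/-- NPQ: the query predicate is in `NP`. -/
def S_NPQ : Prop := ∀ D : Ver, InNPP (Qry D)

/-- PAD: every language in `NP` has a verifier with witnesses of fixed length. -/
def S_PAD : Prop := ∀ L : Set (List Bool), InNP L →
  ∃ D : Ver, ∀ x, x ∈ L ↔ ∃ w : List Bool, w.length = D.n x ∧ D.V x w = true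

/-- ENU: the hypothesis gives enumerators. -/
def S_ENU : Prop := H2 → ∀ L : Set (List Bool), InNP L → ∃ E, EnumFor L E

/-! ### The run of the algorithm -/

/-- The invariant: after `i` levels from the parameter `u`. -/
def Good (x : List Bool) (u i : ℕ) (s : St) : Prop :=
  s.1 = x ∧ s.2.1 = List.replicate u () ∧ s.2.2.length = i ∧
  s.2.2.Pairwise (fun P P' => ∀ q ∈ P, ∀ q' ∈ P', q.1 ≠ q'.1) ∧
  (∀ P ∈ s.2.2, P.length ≤ u ^ 2 ∧ ∀ q ∈ P, q.1 < pr u ∧ q.2 < pr u)

/-- INV: the invariant holds during `par ^ 3` levels. -/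
def S_INV : Prop := ∀ (D : Ver) (E : List (List Bool) → List (List Bool)), Poly E →
  ∃ u1 : ℕ, ∀ u0 ≥ u1, ∀ x : List Bool, ∀ i ≤ par D u0 x ^ 3 + 1,
    Good x (par D u0 x) i ((nxt D E)^[i] (ini D u0 x))

/-- FIL: after all levels few strings survive. -/
def S_FIL : Prop := ∀ (D : Ver) (x : List Bool) (u i : ℕ) (s : St), 2 ≤ u → 3 * D.n x ≤ u →
  i = u ^ 3 → Good x u i s → ∀ X : Finset (List Bool), (∀ w ∈ X, IsW D s w) → X.card ≤ 2 * u ^ 2

/-- COR: correctness of the algorithm. -/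
def S_COR : Prop := ∀ (D : Ver) (E : List (List Bool) → List (List Bool)),
  EnumFor (lang (Qry D)) E → ∃ u1 : ℕ, ∀ u0 ≥ u1, ∀ x : List Bool,
    (acc D E u0 x = true ↔ ∃ w : List Bool, w.length = D.n x ∧ D.V x w = true)

/-- PAC: the algorithm runs in polynomial time. -/
def S_PAC : Prop := ∀ (D : Ver) (E : List (List Bool) → List (List Bool)), Poly E →
  ∃ u1 : ℕ, ∀ u0 ≥ u1, Poly (acc D E u0)

/-- The main theorem. -/
def S_MAIN : Prop := H2 → ∀ L : Set (List Bool), InNP L → InP L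

end Pool.Agent.H251R5.PQ
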