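import Pool.Agent.H251R5.PQ.Stm

/-!
# COR: correctness of the algorithm
-/

set_option autoImplicit false

namespace Pool.Agent.H251R5.PQ

open Pool.Agent.NPC

theorem cor_iter (D : Ver) (E : List (List Bool) → List (List Bool)) (s : St) (k : ℕ) :
    ((nxt2 D E)^[k] (false, s)).2 = (nxt D E)^[k] s ∧
    (((nxt2 D E)^[k] (false, s)).1 = true ↔ ∃ i < k, test D E ((nxt D E)^[i] s) = true) := by
  induction k with
  | zero => simp
  | succ k ih =>
    obtain ⟨ih1, ih2⟩ := ih
    rw [Function.iterate_succ_apply', Function.iterate_succ_apply']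
    refine ⟨?_, ?_⟩
    · show nxt D E ((nxt2 D E)^[k] (false, s)).2 = _
      rw [ih1]
    · show ((((nxt2 D E)^[k] (false, s)).1 || test D E ((nxt2 D E)^[k] (false, s)).2) = true) ↔ _
      rw [Bool.or_eq_true, ih2, ih1]
      constructor
      · rintro (⟨i, hi, h⟩ | h)
        · exact ⟨i, by omega, h⟩
        · exact ⟨k, by omega, h⟩
      · rintro ⟨i, hi, h⟩
        rcases Nat.lt_succ_iff_lt_or_eq.1 hi with h' | h'
        · exact Or.inl ⟨i, h', h⟩
        · subst h'
          exact Or.inr h

theorem cor_test (D : Ver) (E : List (List Bool) → List (List Bool)) (s : St)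
    (h : test D E s = true) : ∃ w : List Bool, w.length = D.n s.1 ∧ D.V s.1 w = true := by
  unfold test at h
  rw [List.any_eq_true] at h
  obtain ⟨g, _, h⟩ := h
  rw [List.any_eq_true] at h
  obtain ⟨a, _, h⟩ := h
  rw [List.any_eq_true] at h
  obtain ⟨y, _, h⟩ := h
  exact ⟨_, by simp [dec], h⟩

theorem cor_sum (B : List Blk) (m : ℕ) (h : ∀ P ∈ B, P.length ≤ m) :
    (B.map List.length).sum ≤ B.length * m := by
  induction B with
  | nil => simp
  | cons P B ih =>
    have h1 := ih (fun Q hQ => h Q (List.mem_cons_of_mem _ hQ))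
    have h2 := h P List.mem_cons_self
    simp only [List.map_cons, List.sum_cons, List.length_cons]
    nlinarith

theorem t_COR (hINV : S_INV) (hFIL : S_FIL) (hLEV : S_LEV) (hFIND : S_FIND) (hPR : S_PR) :
    S_COR := by
  intro D E hE
  obtain ⟨u1, hu1⟩ := hINV D E hE.1
  refine ⟨max u1 2, fun u0 hu0 x => ?_⟩
  have hG := hu1 u0 (le_trans (le_max_left _ _) hu0) x
  have hu2 : 2 ≤ par D u0 x := by
    have : 2 ≤ u0 := le_trans (le_max_right _ _) hu0
    unfold par
    omega
  have hn3 : 3 * D.n x ≤ par D u0 x := by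
    unfold par
    omega
  obtain ⟨_, hacc⟩ := cor_iter D E (ini D u0 x) (par D u0 x ^ 3 + 1)
  unfold acc
  rw [hacc]
  constructor
  · rintro ⟨i, hi, h⟩
    obtain ⟨w, hw1, hw2⟩ := cor_test D E _ h
    have hx := (hG i hi.le).1
    rw [hx] at hw1 hw2
    exact ⟨w, hw1, hw2⟩
  · rintro ⟨w0, hw0, hV0⟩
    by_contra hcon
    push Not at hcon
    set u := par D u0 x with hu
    obtain ⟨hp1, hp2, _⟩ := hPR u (by omega)
    have hsp : ∀ i ≤ u ^ 3 + 1, sp ((nxt D E)^[i] (ini D u0 x)) = pr u := by
      intro i hi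
      unfold sp su
      rw [(hG i hi).2.1, List.length_replicate]
    have hpow : 32 * u ≤ u ^ 6 := by
      calc 32 * u = 2 ^ 5 * u := by norm_num
        _ ≤ u ^ 5 * u := Nat.mul_le_mul_right _ (Nat.pow_le_pow_left hu2 5)
        _ = u ^ 6 := by ring
    have hall : ∀ i ≤ u ^ 3, ∃ w, IsW D ((nxt D E)^[i] (ini D u0 x)) w := by
      intro i
      induction i with
      | zero =>
        intro _
        exact ⟨w0, hw0, hV0, rfl⟩
      | succ i ih =>
        intro hi
        have hg := hG i (by omega)
        have hs := hsp i (by omega)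
        have htest : test D E ((nxt D E)^[i] (ini D u0 x)) = false := by
          have := hcon i (by omega)
          simpa using this
        rw [Function.iterate_succ_apply']
        refine hLEV D E hE _ ?_ ?_ ?_ (ih (by omega)) htest
        · rw [hs]
          exact hp1
        · rw [hs, hg.1]
          omega
        · rw [hs]
          have h1 := cor_sum ((nxt D E)^[i] (ini D u0 x)).2.2 (u ^ 2)
            (fun P hP => (hg.2.2.2.2 P hP).1)
          rw [hg.2.2.1] at h1
          have h2 : i * u ^ 2 ≤ u ^ 3 * u ^ 2 := Nat.mul_le_mul_right _ (by omega)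
          have h3 : 2 * (u ^ 3 * u ^ 2) ≤ u ^ 6 := by
            calc 2 * (u ^ 3 * u ^ 2) ≤ u * (u ^ 3 * u ^ 2) := Nat.mul_le_mul_right _ hu2
              _ = u ^ 6 := by ring
          omega
    obtain ⟨w, hw⟩ := hall (u ^ 3) le_rfl
    have hg := hG (u ^ 3) (by omega)
    have hs := hsp (u ^ 3) (by omega)
    have htest : test D E ((nxt D E)^[u ^ 3] (ini D u0 x)) = false := by
      have := hcon (u ^ 3) (by omega)
      simpa using this
    set s := (nxt D E)^[u ^ 3] (ini D u0 x) with hsdef
    have hfin : {w | IsW D s w}.Finite :=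
      (List.finite_length_eq Bool (D.n s.1)).subset (fun v hv => hv.1)
    have hX := hFIL D x u (u ^ 3) s hu2 hn3 rfl hg hfin.toFinset (fun v hv => by simpa using hv)
    have hfind := hFIND D E hE s (by rw [hs]; exact hp1) hfin.toFinset (fun v => by simp)
      ⟨w, by simpa using hw⟩ (by
        rw [hs, hg.1]
        have h1 : hfin.toFinset.card * D.n x ≤ 2 * u ^ 2 * D.n x := Nat.mul_le_mul_right _ hX
        have h2 : 2 * u ^ 2 * D.n x ≤ u ^ 2 * u := by nlinarith [Nat.zero_le (u ^ 2)]
        have h3 : u ^ 2 * u ≤ u ^ 6 := by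
          calc u ^ 2 * u = u ^ 3 := by ring
            _ ≤ u ^ 6 := Nat.pow_le_pow_right (by omega) (by omega)
        omega)
    rw [htest] at hfind
    exact Bool.false_ne_true hfind

end Pool.Agent.H251R5.PQ
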