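import Pool.Agent.H251R5.PQ.Stm

/-!
# PBL: the block is computable in polynomial time
-/

set_option autoImplicit false

namespace Pool.Agent.H251R5.PQ

open Pool.Agent.NPC

theorem pbl_sz_sublist {α : Type} [TEnc α] {l l' : List α} (h : l.Sublist l') : sz l ≤ sz l' := by
  induction h with
  | slnil => exact le_rfl
  | cons a _ ih => simp only [sz_list_cons]; omega
  | cons_cons a _ ih => simp only [sz_list_cons]; omega

theorem pbl_gstep (hf : List Bool → ℕ × ℕ → Bool) (m : ℕ) (Q : List (ℕ × ℕ))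
    (R : List (List Bool)) (k : ℕ) :
    ((gstep hf m Q)^[k] (R, [])).1.Sublist R ∧ ((gstep hf m Q)^[k] (R, [])).2.length ≤ k ∧
      ∀ q ∈ ((gstep hf m Q)^[k] (R, [])).2, q ∈ Q := by
  induction k with
  | zero => simp
  | succ k ih =>
    rw [Function.iterate_succ_apply']
    obtain ⟨h1, h2, h3⟩ := ih
    generalize (gstep hf m Q)^[k] (R, []) = t at h1 h2 h3
    unfold gstep
    split_ifs with he
    · exact ⟨h1, by omega, h3⟩
    · cases hq : (Q.filter (fun q => decide (t.1.length ≤
          m * (t.1.filter (fun h => hf h q)).length))).head? with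
      | none => exact ⟨h1, by simp only [Option.elim]; omega, h3⟩
      | some q =>
        simp only [Option.elim]
        refine ⟨List.filter_sublist.trans h1, by simp only [List.length_cons]; omega, ?_⟩
        intro q' hq'
        rcases List.mem_cons.1 hq' with h | h
        · rw [h]
          exact List.mem_of_mem_filter (List.mem_of_mem_head? hq)
        · exact h3 q' h

theorem pbl_sz (hf : List Bool → ℕ × ℕ → Bool) (m : ℕ) (Q : List (ℕ × ℕ))
    (R : List (List Bool)) (k : ℕ) (hk : k ≤ R.length) :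
    sz ((gstep hf m Q)^[k] (R, [])) ≤ sz R + sz R * (sz Q + 1) + 2 := by
  obtain ⟨h1, h2, h3⟩ := pbl_gstep hf m Q R k
  have e1 := pbl_sz_sublist h1
  have e2 := sz_le_length_mul ((gstep hf m Q)^[k] (R, [])).2 (sz Q)
    (fun q hq => (sz_le_of_mem (h3 q hq)).le)
  have e3 := length_lt_sz R
  have e4 : ((gstep hf m Q)^[k] (R, [])).2.length * (sz Q + 1) ≤ sz R * (sz Q + 1) :=
    Nat.mul_le_mul_right _ (by omega)
  have e5 : sz ((gstep hf m Q)^[k] (R, [])) =
      sz ((gstep hf m Q)^[k] (R, [])).1 + sz ((gstep hf m Q)^[k] (R, [])).2 + 1 :=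
    sz_pair _ _
  omega

theorem t_PBL (hPRP : S_PRP) (hPQL : S_PQL) : S_PBL := by
  intro D E hE
  have hsu : UPoly (fun s : St => s.2.1.length) := UPoly.length (Poly.fst (Poly.snd Poly.id))
  have hsp : UPoly sp := hPRP (fun s : St => s.2.1.length) hsu
  have hspP : Poly sp := hsp.toPoly
  have hn : UPoly (fun s : St => D.n s.1) := D.hn.comp (Poly.fst Poly.id)
  have hnP : Poly (fun s : St => D.n s.1) := hn.toPoly
  have hrange : Poly (fun s : St => List.range (sp s * sp s)) := (hsp.mul hsp).range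
  have hspc : ∀ {β : Type} [TEnc β] {f : β → St}, Poly f → Poly (fun b => sp (f b)) :=
    fun hf => hspP.comp hf
  have hnc : ∀ {β : Type} [TEnc β] {f : β → St}, Poly f → Poly (fun b => D.n (f b).1) :=
    fun hf => hnP.comp hf
  -- the points
  have hpts : Poly pts := by
    have h1 : Poly (fun p : St × ℕ => (p.2 / sp p.1, p.2 % sp p.1)) := by
      have := hspc (Poly.fst (Poly.id (α := St × ℕ)))
      exact Poly.pair (Poly.div (Poly.snd Poly.id) this) (Poly.mod (Poly.snd Poly.id) this)
    have h2 : Poly (fun s : St => (List.range (sp s * sp s)).map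
        (fun i => (i / sp s, i % sp s))) := NPC.Poly.map hrange h1
    have h3 : Poly (fun p : St × (ℕ × ℕ) =>
        p.1.2.2.all (fun P => P.all (fun r => decide (r.1 ≠ p.2.1)))) := by fun_prop
    exact Poly.filter h2 h3
  -- hit
  have hhit : Poly (fun p : St × (List Bool × (ℕ × ℕ)) =>
      hit (D.n p.1.1) (sp p.1) p.2.1 p.2.2) := by
    have e1 := hspc (Poly.fst (Poly.id (α := St × (List Bool × (ℕ × ℕ)))))
    have e2 := hnc (Poly.fst (Poly.id (α := St × (List Bool × (ℕ × ℕ)))))
    unfold hit val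
    exact Poly.getD (Poly.fst (Poly.snd Poly.id))
      (Poly.add (Poly.mul (Poly.add (Poly.mul (Poly.fst (Poly.snd (Poly.snd Poly.id))) e1)
        (Poly.snd (Poly.snd (Poly.snd Poly.id)))) (Poly.add e2 (NPC.Poly.const 1))) e2)
      (NPC.Poly.const false)
  have hhitc : ∀ {β : Type} [TEnc β] {f : β → St} {g : β → List Bool} {q : β → ℕ × ℕ}, Poly f →
      Poly g → Poly q → Poly (fun b => hit (D.n (f b).1) (sp (f b)) (g b) (q b)) :=
    fun hf hg hq => hhit.comp (Poly.pair hf (Poly.pair hg hq))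
  -- heavy
  have hEq : Poly (fun s : St => E (qlist D s)) := hE.comp (hPQL D)
  have hheavy : Poly (heavy D E) := by
    have h1 : Poly (fun p : St × List Bool => decide ((pts p.1).length ≤
        32 * D.n p.1.1 * ((pts p.1).filter (hit (D.n p.1.1) (sp p.1) p.2)).length)) := by
      have e1 : Poly (fun p : St × List Bool => pts p.1) := hpts.comp (Poly.fst Poly.id)
      have e2 : Poly (fun q : (St × List Bool) × (ℕ × ℕ) =>
          hit (D.n q.1.1.1) (sp q.1.1) q.1.2 q.2) :=
        hhitc (Poly.fst (Poly.fst Poly.id)) (Poly.snd (Poly.fst Poly.id)) (Poly.snd Poly.id)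
      have e3 : Poly (fun p : St × List Bool => (pts p.1).filter
          (hit (D.n p.1.1) (sp p.1) p.2)) :=
        NPC.Poly.filter (p := fun (p : St × List Bool) (q : ℕ × ℕ) =>
          hit (D.n p.1.1) (sp p.1) p.2 q) e1 e2
      exact Poly.decide_le (Poly.length e1) (Poly.mul (Poly.mul (NPC.Poly.const 32)
        (hnc (Poly.fst Poly.id))) (Poly.length e3))
    exact Poly.filter hEq h1
  -- the step
  have hstep : Poly (fun p : St × (List (List Bool) × Blk) =>
      gstep (hit (D.n p.1.1) (sp p.1)) (32 * D.n p.1.1) (pts p.1) p.2) := by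
    unfold gstep
    have e0 : Poly (fun p : St × (List (List Bool) × Blk) => p.2.1.isEmpty) := by fun_prop
    have e1 : Poly (fun p : St × (List (List Bool) × Blk) => pts p.1) :=
      hpts.comp (Poly.fst Poly.id)
    have e2 : Poly (fun q : ((St × (List (List Bool) × Blk)) × (ℕ × ℕ)) × List Bool =>
        hit (D.n q.1.1.1.1) (sp q.1.1.1) q.2 q.1.2) :=
      hhitc (Poly.fst (Poly.fst (Poly.fst Poly.id))) (Poly.snd Poly.id)
        (Poly.snd (Poly.fst Poly.id))
    have e3 : Poly (fun q : (St × (List (List Bool) × Blk)) × (ℕ × ℕ) => q.1.2.1) := by fun_prop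
    have e4 : Poly (fun q : (St × (List (List Bool) × Blk)) × (ℕ × ℕ) =>
        q.1.2.1.filter (fun h => hit (D.n q.1.1.1) (sp q.1.1) h q.2)) :=
      NPC.Poly.filter (p := fun (q : (St × (List (List Bool) × Blk)) × (ℕ × ℕ))
        (h : List Bool) => hit (D.n q.1.1.1) (sp q.1.1) h q.2) e3 e2
    have e5 : Poly (fun q : (St × (List (List Bool) × Blk)) × (ℕ × ℕ) =>
        decide (q.1.2.1.length ≤ 32 * D.n q.1.1.1 *
          (q.1.2.1.filter (fun h => hit (D.n q.1.1.1) (sp q.1.1) h q.2)).length)) :=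
      Poly.decide_le (Poly.length e3) (Poly.mul (Poly.mul (NPC.Poly.const 32)
        (hnc (Poly.fst (Poly.fst Poly.id)))) (Poly.length e4))
    have e6 := NPC.Poly.head? (NPC.Poly.filter (p := fun (p : St × (List (List Bool) × Blk))
      (q : ℕ × ℕ) => decide (p.2.1.length ≤ 32 * D.n p.1.1 *
          (p.2.1.filter (fun h => hit (D.n p.1.1) (sp p.1) h q)).length)) e1 e5)
    have e7 : Poly (fun q : (St × (List (List Bool) × Blk)) × (ℕ × ℕ) =>
        (q.1.2.1.filter (fun h => !(hit (D.n q.1.1.1) (sp q.1.1) h q.2)), q.2 :: q.1.2.2)) :=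
      Poly.pair (NPC.Poly.filter (p := fun (q : (St × (List (List Bool) × Blk)) × (ℕ × ℕ))
        (h : List Bool) => !(hit (D.n q.1.1.1) (sp q.1.1) h q.2)) e3 (Poly.not e2))
        (Poly.cons (Poly.snd Poly.id) (Poly.snd (Poly.snd (Poly.fst Poly.id))))
    have e8 := NPC.Poly.optElim (g := fun p : St × (List (List Bool) × Blk) => p.2)
      (h := fun (p : St × (List (List Bool) × Blk)) (q : ℕ × ℕ) =>
        (p.2.1.filter (fun h => !(hit (D.n p.1.1) (sp p.1) h q)), q :: p.2.2)) e6
      (Poly.snd Poly.id) e7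
    have e9 := Poly.cond e0 (Poly.snd Poly.id) e8
    refine e9.congr fun p => ?_
    cases p.2.1.isEmpty <;> rfl
  -- the iteration
  obtain ⟨rR, hrR⟩ := hheavy.sz_le
  obtain ⟨rQ, hrQ⟩ := hpts.sz_le
  have hit' := Poly.iterLen (l := heavy D E) (s := fun s => (heavy D E s, ([] : Blk)))
    (F := fun s t => gstep (hit (D.n s.1) (sp s)) (32 * D.n s.1) (pts s) t) hheavy
    (Poly.pair hheavy (NPC.Poly.const [])) hstep
    (rR + rR * (rQ + Polynomial.C 1) + Polynomial.C 2) (by
      intro s k hk
      refine (pbl_sz _ _ _ _ k hk).trans ?_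
      simp only [Polynomial.eval_add, Polynomial.eval_mul, Polynomial.eval_C]
      have h1 := hrR s
      have h2 := hrQ s
      have h3 : sz (heavy D E s) * (sz (pts s) + 1) ≤ rR.eval (sz s) * (rQ.eval (sz s) + 1) :=
        Nat.mul_le_mul h1 (by omega)
      omega)
  exact Poly.snd hit'

end Pool.Agent.H251R5.PQ
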